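import Pool.Agent.H97.QUAD.Fre
import Pool.Agent.H21.QW.Comb

/-!
# Fresh labels (row 366, `Pool.QC.FreshStmt`)
-/

set_option autoImplicit false
set_option linter.unusedSectionVars false
set_option linter.unusedVariables false

namespace Pool.CLO97

open Finset
open Pool.Agent.H49.Ent Pool.Agent.H32.Dense Pool.CH30 Pool.BFL Pool.STK Pool.KS6 Pool.RC21

theorem Ex_ind {Ω : Type} [Fintype Ω] (p : Ω → ℝ) (E : Ω → Prop) :
    Ex p (fun z => ind (E z)) = Pb p E := by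
  classical
  unfold Ex Pb ind
  refine Finset.sum_congr rfl fun ω _ => ?_
  beta_reduce
  by_cases h : E ω
  · rw [if_pos h, if_pos h, mul_one]
  · rw [if_neg h, if_neg h, mul_zero]

theorem push_law {Ω Ω' : Type} [Fintype Ω] [Fintype Ω'] (p : Ω → ℝ) (π : Ω → Ω') :
    Push p (law p π) π := by
  intro ω
  rfl

/-- The digits of the position. -/
theorem digits {Γ : Type} [Fintype Γ] {ν : Γ → ℝ} (hν : ∀ ω, 0 ≤ ν ω) (hν1 : ∑ ω, ν ω = 1)
    (X n m : ℕ) (hn : n + m ≤ X) (A B : Γ → ℤ) (a b : ℤ)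
    (hAB : ∀ ω, 0 < ν ω → A ω - a = 2 ^ m * (B ω - b)) :
    H ν B - ((X : ℝ) + 1 - n - m) * Real.log 2 ≤
      H ν (fun ω => ⌊(2 : ℝ) ^ n * ((1 + (A ω - a : ℤ) / 2 ^ X) / 2)⌋) := by
  obtain ⟨L, hL⟩ : ∃ L : ℕ, L = X + 1 - n - m := ⟨_, rfl⟩
  have hXL : X + 1 = L + n + m := by omega
  have k1 : H ν B ≤ H ν (fun ω => (⌊(2 : ℝ) ^ n * ((1 + (A ω - a : ℤ) / 2 ^ X) / 2)⌋,
      B ω % 2 ^ L)) := by
    refine H_mono hν ?_
    intro ω ω' hω hω' hh
    simp only [Prod.mk.injEq] at hh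
    obtain ⟨h1, h2⟩ := hh
    have d1 : (2 : ℤ) ^ L ∣ B ω - B ω' := Int.ModEq.dvd (show B ω' % 2 ^ L = B ω % 2 ^ L from
      h2.symm)
    have e1 := Int.floor_le ((2 : ℝ) ^ n * ((1 + (A ω - a : ℤ) / 2 ^ X) / 2))
    have e2 := Int.lt_floor_add_one ((2 : ℝ) ^ n * ((1 + (A ω - a : ℤ) / 2 ^ X) / 2))
    have e3 := Int.floor_le ((2 : ℝ) ^ n * ((1 + (A ω' - a : ℤ) / 2 ^ X) / 2))
    have e4 := Int.lt_floor_add_one ((2 : ℝ) ^ n * ((1 + (A ω' - a : ℤ) / 2 ^ X) / 2))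
    rw [h1] at e1 e2
    rw [hAB ω hω] at e1 e2
    rw [hAB ω' hω'] at e3 e4
    obtain ⟨fl, hfl⟩ : ∃ fl : ℝ, fl = (⌊(2 : ℝ) ^ n * ((1 + (A ω' - a : ℤ) / 2 ^ X) / 2)⌋ : ℤ) :=
      ⟨_, rfl⟩
    rw [hAB ω' hω'] at hfl
    rw [hAB ω' hω'] at e1 e2
    rw [← hfl] at e1 e2 e3 e4
    have hX : (0 : ℝ) < 2 ^ X := by positivity
    have f1 : ∀ t : ℤ, (2 : ℝ) ^ n * ((1 + (2 ^ m * (t - b) : ℤ) / 2 ^ X) / 2) =
        2 ^ n / 2 + (t - b : ℝ) / 2 ^ L := by
      intro t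
      have g : (2 : ℝ) ^ X * 2 = 2 ^ L * 2 ^ n * 2 ^ m := by
        rw [← pow_succ, hXL, pow_add, pow_add]
      have hL0 : (0 : ℝ) < 2 ^ L := by positivity
      push_cast
      have : (2 : ℝ) ^ n * ((1 + 2 ^ m * (t - b) / 2 ^ X) / 2) =
          2 ^ n / 2 + (2 ^ n * 2 ^ m) * (t - b) / (2 ^ X * 2) := by
        field_simp
      rw [this, g]
      field_simp
    rw [f1] at e1 e2 e3 e4
    have hL0 : (0 : ℝ) < 2 ^ L := by positivity
    have d2 : |((B ω - B ω' : ℤ) : ℝ)| < 2 ^ L := by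
      have : ((B ω - B ω' : ℤ) : ℝ) =
          2 ^ L * (((B ω - b : ℝ) / 2 ^ L) - ((B ω' - b : ℝ) / 2 ^ L)) := by
        push_cast
        field_simp
        ring
      rw [this, abs_mul, abs_of_pos hL0]
      have : |((B ω - b : ℝ) / 2 ^ L) - ((B ω' - b : ℝ) / 2 ^ L)| < 1 := by
        rw [abs_lt]
        constructor <;> linarith
      nlinarith
    have d3 : |B ω - B ω'| < 2 ^ L := by exact_mod_cast d2
    have := Int.eq_zero_of_abs_lt_dvd d1 d3
    linarith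
  have k2 := subadd hν hν1 (X := fun ω => ⌊(2 : ℝ) ^ n * ((1 + (A ω - a : ℤ) / 2 ^ X) / 2)⌋)
    (Y := fun ω => B ω % 2 ^ L) (W := fun ω => (⌊(2 : ℝ) ^ n * ((1 + (A ω - a : ℤ) / 2 ^ X) / 2)⌋,
      B ω % 2 ^ L)) (fun _ _ _ _ hh => hh)
  have k3 : H ν (fun ω => B ω % 2 ^ L) ≤ Real.log ((Finset.Ico (0 : ℤ) (2 ^ L)).card) := by
    refine H_le_log_card hν hν1 _ _ ?_
    intro ω _
    rw [Finset.mem_Ico]
    exact ⟨Int.emod_nonneg _ (by positivity), Int.emod_lt_of_pos _ (by positivity)⟩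
  have k4 : ((Finset.Ico (0 : ℤ) (2 ^ L)).card : ℝ) = 2 ^ L := by
    rw [Int.card_Ico, sub_zero]
    have : ((2 : ℤ) ^ L).toNat = 2 ^ L := by
      have : ((2 : ℤ) ^ L) = ((2 ^ L : ℕ) : ℤ) := by push_cast; rfl
      rw [this, Int.toNat_natCast]
    rw [this]
    push_cast
    rfl
  rw [k4, Real.log_pow] at k3
  have k5 : (L : ℝ) = (X : ℝ) + 1 - n - m := by
    have : ((X + 1 : ℕ) : ℝ) = (L + n + m : ℕ) := by rw [hXL]
    push_cast at this
    linarith
  rw [k5] at k3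
  linarith

/-- **(FRESH)** -/
theorem fresh : Pool.QC.FreshStmt := by
  classical
  refine ⟨78, fun d m K C C1 hK hC hC1 =>
    ⟨22 * Real.log 2 + 9 * Real.log C + 9 * (1 + C1), ?_⟩⟩
  intro α β _ _ ma mb hma hma1 hmb hmb1 adj x u X q hq hq2 hat hx J s hs hdeg v hv N hN
  have hmX : m ≤ X := by omega
  have hln : 0 < Real.log 2 := Real.log_pos (by norm_num)
  obtain ⟨l, hl⟩ : ∃ l : ℝ, l = Real.log (1 / q) := ⟨_, rfl⟩
  have hl2 : Real.log 2 ≤ l := by
    rw [hl]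
    refine Real.log_le_log (by norm_num) ?_
    rw [le_div_iff₀ hq]
    linarith
  have hl0 : 0 < l := by linarith
  have hlq : Real.log q = -l := by rw [hl, one_div, Real.log_inv]; ring
  have h2q : Real.log (2 / q) ≤ 2 * l := by
    rw [Real.log_div (by norm_num) hq.ne', hlq]
    linarith
  have hC0 : 0 < C1 := by linarith
  have hexp : Real.exp (-(C1 * l)) = q ^ C1 := by
    rw [Real.rpow_def_of_pos hq, hlq]
    congr 1
    ring
  -- the set of labels
  obtain ⟨V, hV⟩ : ∃ V : Finset α, V = univ.filter (fun t => ∀ j, adj (s j) t) := ⟨_, rfl⟩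
  have hmV : ∀ t, t ∈ V ↔ ∀ j, adj (s j) t := by
    intro t
    rw [hV]
    simp
  have hwV : q ^ C1 ≤ wW ma V := by
    refine hs.trans (le_of_eq ?_)
    unfold wW
    rw [hV, Finset.sum_filter]
  have hqC : 0 < q ^ C1 := Real.rpow_pos_of_pos hq _
  have hwV0 : 0 < wW ma V := hqC.trans_le hwV
  have hwV1 : wW ma V ≤ 1 := by
    refine le_trans ?_ hma1
    exact Finset.sum_le_sum_of_subset_of_nonneg (Finset.subset_univ _) fun t _ _ => hma t
  have hR : RHyp mb ma adj V q := by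
    refine ⟨hmb, hmb1, hma, hq, hwV0, ?_⟩
    intro t _ _
    refine ⟨univ.filter (fun b => adj b t), ?_, ?_⟩
    · intro b hb
      exact (Finset.mem_filter.mp hb).2
    · rw [Finset.sum_filter]
      exact hdeg t
  -- positions
  obtain ⟨pos, hpo⟩ : ∃ pos : α → ℕ, pos = fun t => (x t u).toNat := ⟨_, rfl⟩
  have hposx : ∀ t, ((pos t : ℕ) : ℤ) = x t u := fun t => by
    rw [hpo]
    exact Int.toNat_of_nonneg (hx t u).1
  have hpos : ∀ t, pos t < 2 ^ X := fun t => by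
    have := (hx t u).2
    rw [← hposx] at this
    exact_mod_cast this
  obtain ⟨rest, hre⟩ : ∃ rest : α → Fin d → ℤ, rest = fun t j => if j = u then 0 else x t j :=
    ⟨_, rfl⟩
  obtain ⟨F, hF⟩ : ∃ F : Finset (Fin d → ℤ),
    F = Fintype.piFinset (fun j : Fin d => if j = u then {0} else Finset.Ico 0 (2 ^ X)) := ⟨_, rfl⟩
  have hrF : ∀ t, rest t ∈ F := by
    intro t
    rw [hF, hre, Fintype.mem_piFinset]
    intro j
    by_cases hj : j = u
    · simp [hj]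
    · rw [if_neg hj]
      show (if j = u then 0 else x t j) ∈ Finset.Ico 0 (2 ^ X)
      rw [if_neg hj, Finset.mem_Ico]
      exact hx t j
  have hcF : (2 : ℝ) ^ X * F.card = 2 ^ (d * X) := by
    have e1 : F.card = ∏ j : Fin d, (if j = u then 1 else 2 ^ X) := by
      rw [hF, Fintype.card_piFinset]
      refine Finset.prod_congr rfl fun j _ => ?_
      split_ifs
      · simp
      · rw [Int.card_Ico, sub_zero]
        have : ((2 : ℤ) ^ X) = ((2 ^ X : ℕ) : ℤ) := by push_cast; rfl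
        rw [this, Int.toNat_natCast]
    have e2 : 2 ^ X * F.card = 2 ^ (d * X) := by
      rw [e1]
      have e3 : ∏ j : Fin d, (if j = u then 2 ^ X else 1) = 2 ^ X := by
        rw [Finset.prod_ite_eq']
        simp
      have e4 : ∀ j : Fin d, ((if j = u then 2 ^ X else 1) * (if j = u then 1 else 2 ^ X) : ℕ) =
          2 ^ X := by
        intro j
        split_ifs <;> simp
      calc 2 ^ X * ∏ j : Fin d, (if j = u then 1 else 2 ^ X) =
          (∏ j : Fin d, (if j = u then 2 ^ X else 1)) *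
            ∏ j : Fin d, (if j = u then 1 else 2 ^ X) := by
            rw [e3]
        _ = ∏ j : Fin d, ((if j = u then 2 ^ X else 1) * (if j = u then 1 else 2 ^ X)) :=
            Finset.prod_mul_distrib.symm
        _ = ∏ j : Fin d, 2 ^ X := Finset.prod_congr rfl fun j _ => e4 j
        _ = 2 ^ (d * X) := by
            rw [Finset.prod_const, Finset.card_univ, Fintype.card_fin, ← pow_mul, mul_comm]
    exact_mod_cast e2
  have hatG : ∀ G : Finset α, (∀ a ∈ G, ∀ b ∈ G, pos a = pos b ∧ rest a = rest b) →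
      ∑ a ∈ G, ma a ≤ C / (2 ^ X * F.card) := by
    intro G hG
    rw [hcF]
    rcases G.eq_empty_or_nonempty with h0 | ⟨a₀, ha₀⟩
    · rw [h0, Finset.sum_empty]
      positivity
    · refine le_trans ?_ (hat (x a₀))
      have e : ∀ a ∈ G, x a = x a₀ := by
        intro a ha
        obtain ⟨h1, h2⟩ := hG a ha a₀ ha₀
        funext j
        by_cases hj : j = u
        · rw [hj, ← hposx, ← hposx, h1]
        · have := congrFun h2 j
          rw [hre] at this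
          simpa only [hj, if_false] using this
      calc ∑ a ∈ G, ma a = ∑ a ∈ G, (if x a = x a₀ then ma a else 0) :=
            Finset.sum_congr rfl fun a ha => by rw [if_pos (e a ha)]
        _ ≤ _ := Finset.sum_le_sum_of_subset_of_nonneg (Finset.subset_univ _) fun a _ _ => by
            split_ifs <;> [exact hma a; exact le_rfl]
  -- the slope
  obtain ⟨fl, hfl⟩ : ∃ fl : ℕ → ℤ, fl = fun n : ℕ => v * (n : ℤ) / 2 ^ X := ⟨_, rfl⟩
  have h2X : (0 : ℤ) < 2 ^ X := by positivity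
  have hflb : ∀ n < 2 ^ X, |fl n| ≤ 2 ^ X := by
    intro n hn
    have hn' : (n : ℤ) < 2 ^ X := by exact_mod_cast hn
    have hn0 : (0 : ℤ) ≤ n := Int.natCast_nonneg n
    obtain ⟨v1, v2⟩ := abs_le.mp hv
    rw [hfl, abs_le]
    constructor
    · refine (Int.le_ediv_iff_mul_le h2X).mpr ?_
      nlinarith
    · refine (Int.ediv_le_iff_le_mul h2X).mpr ?_
      nlinarith
  have hs0 : 0 < C1 * l := mul_pos hC0 hl0
  obtain ⟨Γ, iΓ, ν, y, b, hν, hν1, hbV, hsup, hH, hS, hT⟩ := core hR hwV1 X m hmX fl hflb pos hpos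
    rest F hrF hC hatG hs0 N (fun w n' n => ⌊(2 : ℝ) ^ (K * w) *
      ((1 + (((n : ℤ) - (n' : ℤ) : ℤ) : ℝ) / 2 ^ X) / 2)⌋)
  obtain ⟨π, hπ⟩ : ∃ π : Γ → Fin 3 → α, π = fun ω i => y i ω := ⟨_, rfl⟩
  have hpu : Push ν (law ν π) π := push_law ν π
  have hP0 : ∀ ω, 0 ≤ law ν π ω := fun ω => law_nonneg hν π ω
  have hPs : ∀ ω, 0 < law ν π ω → ∃ ω', 0 < ν ω' ∧ π ω' = ω := by
    intro ω hω
    by_contra hcon
    push Not at hcon
    have : law ν π ω ≤ 0 := by
      unfold law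
      refine Finset.sum_nonpos fun w _ => ?_
      by_cases hw : π w = ω
      · rw [if_pos hw]
        by_contra h0
        exact hcon w (not_le.mp h0) hw
      · rw [if_neg hw]
    linarith
  have hrel : ∀ ω, 0 < ν ω → x (y 0 ω) u - x (b 0) u = 2 ^ m * (x (y 1 ω) u - x (b 1) u) := by
    intro ω hω
    have := (hsup ω hω).2.1
    simp only [hposx] at this
    linarith
  -- probabilities
  have hPb : ∀ (n : ℕ), Ex (dbl (law ν π) (Pool.QC.dgt x u X n (b 0))) (fun z =>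
      ind (¬ q ^ C1 ≤ ∑ t, if ∀ i, adj t (z.1 i) ∧ adj t (z.2 i) then mb t else 0)) =
      Pb (cp ν (fun ω => ⌊(2 : ℝ) ^ n * ((1 + (((pos (y 0 ω) : ℤ) - (pos (b 0) : ℤ) : ℤ) : ℝ) /
        2 ^ X) / 2)⌋) ν (fun ω => ⌊(2 : ℝ) ^ n * ((1 + (((pos (y 0 ω) : ℤ) -
        (pos (b 0) : ℤ) : ℤ) : ℝ) / 2 ^ X) / 2)⌋))
        (fun w => nb mb adj (two y w) < Real.exp (-(C1 * l))) := by
    intro n
    rw [Ex_ind]
    have e1 := Pb_cp_push hpu hP0 hν (Pool.QC.dgt x u X n (b 0)) (fun z =>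
      ¬ q ^ C1 ≤ ∑ t, if ∀ i, adj t (z.1 i) ∧ adj t (z.2 i) then mb t else 0)
    have e2 : (fun ω => Pool.QC.dgt x u X n (b 0) (π ω)) = fun ω => ⌊(2 : ℝ) ^ n *
        ((1 + (((pos (y 0 ω) : ℤ) - (pos (b 0) : ℤ) : ℤ) : ℝ) / 2 ^ X) / 2)⌋ := by
      funext ω
      unfold Pool.QC.dgt
      rw [hπ]
      simp only [hposx]
    rw [e2] at e1
    refine e1.symm.trans ?_
    congr 1
    funext w
    rw [hexp, ← not_le]
    congr 2
    unfold nb
    refine Finset.sum_congr rfl fun t _ => ?_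
    have e3 : (∀ i, adj t (two y (w.1, w.2) i)) ↔ ∀ i, adj t (π w.1 i) ∧ adj t (π w.2 i) := by
      rw [Sum.forall, hπ]
      exact forall_and.symm
    by_cases h : ∀ i, adj t (π w.1 i) ∧ adj t (π w.2 i)
    · rw [if_pos h, if_pos (e3.mpr h)]
    · rw [if_neg h, if_neg (fun h' => h (e3.mp h'))]
  have hxl : ∀ t t', |x t u - x t' u| < 2 ^ X := fun t t' => by
    have h1 := hx t u
    have h2 := hx t' u
    rw [abs_lt]
    constructor <;> linarith
  refine ⟨b, law ν π, ⟨hP0, by rw [← hpu.sum, hν1]⟩, ?_, ?_, ?_, ?_, ?_, ?_⟩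
  · intro i j
    exact (hmV _).mp (hbV i) j
  · intro ω hω i j
    obtain ⟨ω', h1, h2⟩ := hPs ω hω
    rw [← h2, hπ]
    exact (hmV _).mp ((hsup ω' h1).1 i).1 j
  · intro ω hω
    obtain ⟨ω', h1, h2⟩ := hPs ω hω
    have h3 := hsup ω' h1
    rw [← h2, hπ]
    refine ⟨fun i j hj => ?_, hrel ω' h1, ?_⟩
    · have := congrFun (h3.1 i).2 j
      rw [hre] at this
      simpa only [hj, if_false] using this
    · have h4 := h3.2.2
      rw [hfl] at h4
      simp only [hposx] at h4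
      have g1 := Int.mul_ediv_add_emod (v * x (y 1 ω') u) (2 ^ X)
      have g2 := Int.mul_ediv_add_emod (v * x (b 1) u) (2 ^ X)
      have g3 := Int.emod_nonneg (v * x (y 1 ω') u) h2X.ne'
      have g4 := Int.emod_nonneg (v * x (b 1) u) h2X.ne'
      have g5 := Int.emod_lt_of_pos (v * x (y 1 ω') u) h2X
      have g6 := Int.emod_lt_of_pos (v * x (b 1) u) h2X
      have g7 : x (y 2 ω') u - x (b 2) u = v * x (y 1 ω') u / 2 ^ X - v * x (b 1) u / 2 ^ X := by
        linarith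
      rw [show (2 : ℤ) ^ X * (x (y 2 ω') u - x (b 2) u) - v * (x (y 1 ω') u - x (b 1) u) =
        (v * x (b 1) u) % 2 ^ X - (v * x (y 1 ω') u) % 2 ^ X by
          rw [g7]; linear_combination g1 - g2]
      rw [abs_le]
      constructor <;> linarith
  · intro n hn
    have e1 : H (law ν π) (Pool.QC.dgt x u X n (b 0)) = H ν (fun ω => ⌊(2 : ℝ) ^ n *
        ((1 + (x (y 0 ω) u - x (b 0) u : ℤ) / 2 ^ X) / 2)⌋) := by
      rw [← hpu.H (Pool.QC.dgt x u X n (b 0)), hπ]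
      rfl
    rw [e1]
    have k1 := digits hν hν1 X n m hn (fun ω => x (y 0 ω) u) (fun ω => x (y 1 ω) u) (x (b 0) u)
      (x (b 1) u) hrel
    have k2 : H ν (fun ω => pos (y 1 ω)) ≤ H ν (fun ω => x (y 1 ω) u) := by
      refine H_mono hν ?_
      intro ω ω' _ _ hh
      have : ((pos (y 1 ω) : ℕ) : ℤ) = pos (y 1 ω') := by rw [hposx, hposx]; exact hh
      exact_mod_cast this
    have k3 : Real.log (2 / (q * wW ma V)) ≤ Real.log 2 + (1 + C1) * l := by
      have : 2 / (q * wW ma V) ≤ 2 / (q * q ^ C1) := by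
        refine div_le_div_of_nonneg_left (by norm_num) (by positivity) ?_
        exact mul_le_mul_of_nonneg_left hwV hq.le
      refine (Real.log_le_log (by positivity) this).trans (le_of_eq ?_)
      rw [Real.log_div (by norm_num) (by positivity), Real.log_mul hq.ne' hqC.ne',
        Real.log_rpow hq, hlq]
      ring
    have hCl : 0 ≤ Real.log C := Real.log_nonneg hC
    rw [← hl]
    have k4 : 0 ≤ (22 * Real.log 2 + 9 * Real.log C) * l := by positivity
    nlinarith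
  · rw [hPb 0]
    have e1 : (fun ω => ⌊(2 : ℝ) ^ 0 * ((1 + (((pos (y 0 ω) : ℤ) - (pos (b 0) : ℤ) : ℤ) : ℝ) /
        2 ^ X) / 2)⌋) = fun ω => (fun _ : Unit => (0 : ℤ)) ((fun _ => ()) ω) := by
      funext ω
      simp only [hposx]
      rw [Int.floor_eq_zero_iff, pow_zero, one_mul]
      have h1 := hxl (y 0 ω) (b 0)
      have h2 : |((x (y 0 ω) u - x (b 0) u : ℤ) : ℝ)| < 2 ^ X := by exact_mod_cast h1
      have h3 : |((x (y 0 ω) u - x (b 0) u : ℤ) : ℝ) / 2 ^ X| < 1 := by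
        rw [abs_div, abs_of_pos (show (0 : ℝ) < 2 ^ X by positivity), div_lt_one (by positivity)]
        exact h2
      obtain ⟨h4, h5⟩ := abs_lt.mp h3
      constructor <;> linarith
    have e2 := cp_reenc (p := ν) (fun _ : Γ => ()) (f := fun _ : Unit => (0 : ℤ))
      (fun _ _ _ => rfl)
    rw [e1, e2, le_div_iff₀ hC0]
    have k1 : C1 * l * Pb (cp ν (fun _ => ()) ν (fun _ => ()))
        (fun w => nb mb adj (two y w) < Real.exp (-(C1 * l))) ≤ 78 * l := hT.trans (by linarith)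
    have k2 : l * (Pb (cp ν (fun _ => ()) ν (fun _ => ()))
        (fun w => nb mb adj (two y w) < Real.exp (-(C1 * l))) * C1) ≤ l * 78 := by
      linarith
    exact le_of_mul_le_mul_left k2 hl0
  · rw [Finset.sum_congr rfl fun w _ => hPb (K * w)]
    have k1 := hS.trans (mul_le_mul_of_nonneg_left (mul_le_mul_of_nonneg_left h2q
      (Nat.cast_nonneg N)) (by norm_num : (0 : ℝ) ≤ 39))
    generalize (∑ l_1 ∈ range N, Pb (cp ν (fun ω => ⌊(2 : ℝ) ^ (K * l_1) *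
      ((1 + (((pos (y 0 ω) : ℤ) - (pos (b 0) : ℤ) : ℤ) : ℝ) / 2 ^ X) / 2)⌋) ν (fun ω =>
      ⌊(2 : ℝ) ^ (K * l_1) * ((1 + (((pos (y 0 ω) : ℤ) - (pos (b 0) : ℤ) : ℤ) : ℝ) / 2 ^ X) /
      2)⌋)) (fun w => nb mb adj (two y w) < Real.exp (-(C1 * l)))) = G at k1 ⊢
    have k2 : l * (G * C1) ≤ l * (78 * N) := by linarith
    have k3 := le_of_mul_le_mul_left k2 hl0
    rw [div_mul_eq_mul_div, le_div_iff₀ hC0]
    exact k3

end Pool.CLO97
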