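import Pool.Agent.H97.QUAD.Clo

/-!
# Samples for a signal (row 366, K_COMB (B-i))

`bi`: for a set `W` of labels of positive measure there are a root, and a law of triples
`(x₀, x₁, x₂)` of labels of `W` adjacent to the root with
`pos x₀ = 2 ^ p * pos x₁ + c₁`, `pos x₂ = ⌊v * pos x₁⌋ + c₂` and fixed `rest`, such that `pos x₁` is
nearly full, and for most `l` two copies with the same prefix of length `l` of `pos x₀` have many
common neighbours.
-/

set_option autoImplicit false
set_option linter.unusedSectionVars false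
set_option linter.unusedVariables false

namespace Pool.CLO97

open Finset
open Pool.Agent.H49.Ent Pool.Agent.H32.Dense Pool.CH30 Pool.BFL

section dis

variable {Ω K L C C' : Type} [Fintype Ω] {p : Ω → ℝ}

/-- Copies given `c` do not depend on the names of the values of `c`. -/
theorem cp_reenc (c : Ω → C) {f : C → C'} (hf : Function.Injective f) :
    cp p (fun ω => f (c ω)) p (fun ω => f (c ω)) = cp p c p c := by
  classical
  funext w
  unfold cp glue
  have e : law p (fun ω => f (c ω)) (f (c w.1)) = law p c (c w.1) := by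
    unfold law
    refine Finset.sum_congr rfl fun ω _ => ?_
    by_cases h : c ω = c w.1
    · simp [h]
    · rw [if_neg h, if_neg (fun h' => h (hf h'))]
  rw [e]
  by_cases h : c w.1 = c w.2
  · rw [if_pos h, if_pos (by show f (c w.1) = f (c w.2); rw [h])]
  · rw [if_neg h, if_neg (fun h' => h (hf h'))]

/-- Disintegration of copies. -/
theorem cp_dis [DecidableEq K] (hp : ∀ ω, 0 ≤ p ω) (z : Ω → K) (w : Ω → L) (ω : Ω × Ω) :
    cp p (fun ω => (w ω, z ω)) p (fun ω => (w ω, z ω)) ω =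
      ∑ k ∈ univ.image z, law p z k * cp (cond p z k) w (cond p z k) w ω := by
  classical
  rw [Finset.sum_eq_single (z ω.1)]
  · unfold cp glue
    rcases (law_nonneg hp z (z ω.1)).eq_or_lt with h0 | h0
    · have : p ω.1 = 0 := le_antisymm ((le_law hp z ω.1).trans h0.symm.le) (hp _)
      simp [this, ← h0]
    · rw [law_cond]
      by_cases h1 : w ω.1 = w ω.2
      · by_cases h2 : z ω.1 = z ω.2
        · have e1 : cond p z (z ω.1) ω.1 = p ω.1 / law p z (z ω.1) := by
            unfold Pool.Agent.H49.Ent.cond; rw [if_pos rfl]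
          have e2 : cond p z (z ω.1) ω.2 = p ω.2 / law p z (z ω.1) := by
            unfold Pool.Agent.H49.Ent.cond; rw [if_pos h2.symm]
          rw [if_pos (by show (w ω.1, z ω.1) = (w ω.2, z ω.2); rw [h1, h2]), if_pos h1, e1, e2]
          field_simp
        · have e2 : cond p z (z ω.1) ω.2 = 0 := by
            unfold Pool.Agent.H49.Ent.cond; rw [if_neg (fun h => h2 h.symm)]
          rw [if_neg (by simp only [Prod.mk.injEq]; tauto), if_pos h1, e2]
          simp
      · rw [if_neg (by simp only [Prod.mk.injEq]; tauto), if_neg h1, mul_zero]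
  · intro k _ hk
    have : cond p z k ω.1 = 0 := by unfold Pool.Agent.H49.Ent.cond; rw [if_neg (Ne.symm hk)]
    unfold cp glue
    rw [this]
    simp
  · intro h
    exact absurd (Finset.mem_image_of_mem _ (Finset.mem_univ _)) h

theorem Pb_dis [DecidableEq K] (hp : ∀ ω, 0 ≤ p ω) (z : Ω → K) (w : Ω → L) (E : Ω × Ω → Prop) :
    Pb (cp p (fun ω => (w ω, z ω)) p (fun ω => (w ω, z ω))) E =
      ∑ k ∈ univ.image z, law p z k * Pb (cp (cond p z k) w (cond p z k) w) E := by
  classical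
  unfold Pb
  simp only [Finset.mul_sum]
  rw [Finset.sum_comm]
  refine Finset.sum_congr rfl fun ω _ => ?_
  rw [cp_dis hp]
  split_ifs
  · rfl
  · simp

theorem Pb_nn {p : Ω → ℝ} (hp : ∀ ω, 0 ≤ p ω) (E : Ω → Prop) : 0 ≤ Pb p E := by
  classical
  unfold Pb
  exact Finset.sum_nonneg fun ω _ => by split_ifs <;> [exact hp ω; exact le_rfl]

end dis

section markov

variable {K : Type} [DecidableEq K]

/-- A value which is good for two averages. -/
theorem good_value {F : Finset K} {w D S : K → ℝ} (hw : ∀ k ∈ F, 0 ≤ w k) (h1 : ∑ k ∈ F, w k = 1)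
    {d s : ℝ} (hd : 0 < d) (hs : 0 < s) (hD : ∑ k ∈ F, w k * D k ≤ d) (hS : ∑ k ∈ F, w k * S k ≤ s)
    (hD0 : ∀ k ∈ F, 0 < w k → 0 ≤ D k) (hS0 : ∀ k ∈ F, 0 < w k → 0 ≤ S k) :
    ∃ k ∈ F, 0 < w k ∧ D k ≤ 2 * d ∧ S k ≤ 2 * s := by
  by_contra hcon
  push Not at hcon
  have k1 : ∀ k ∈ F, w k * 2 ≤ w k * (D k / d + S k / s) := by
    intro k hk
    rcases (hw k hk).eq_or_lt with h0 | h0
    · rw [← h0, zero_mul, zero_mul]
    · refine mul_le_mul_of_nonneg_left ?_ h0.le
      have a1 := hD0 k hk h0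
      have a2 := hS0 k hk h0
      by_cases hc : D k ≤ 2 * d
      · have := hcon k hk h0 hc
        have : 2 ≤ S k / s := by rw [le_div_iff₀ hs]; exact this.le
        have : 0 ≤ D k / d := div_nonneg a1 hd.le
        linarith
      · have : 2 ≤ D k / d := by rw [le_div_iff₀ hd]; exact (not_le.mp hc).le
        have : 0 ≤ S k / s := div_nonneg a2 hs.le
        linarith
  have k2 : ∃ k ∈ F, w k * 2 < w k * (D k / d + S k / s) := by
    obtain ⟨k, hk, h0⟩ : ∃ k ∈ F, 0 < w k := by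
      by_contra hno
      push Not at hno
      have : ∑ k ∈ F, w k ≤ 0 := Finset.sum_nonpos hno
      linarith
    refine ⟨k, hk, mul_lt_mul_of_pos_left ?_ h0⟩
    have a1 := hD0 k hk h0
    have a2 := hS0 k hk h0
    by_cases hc : D k ≤ 2 * d
    · have := hcon k hk h0 hc
      have : 2 < S k / s := by rw [lt_div_iff₀ hs]; exact this
      have : 0 ≤ D k / d := div_nonneg a1 hd.le
      linarith
    · have : 2 < D k / d := by rw [lt_div_iff₀ hd]; exact (not_le.mp hc)
      have : 0 ≤ S k / s := div_nonneg a2 hs.le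
      linarith
  have k3 := Finset.sum_lt_sum k1 k2
  rw [← Finset.sum_mul, h1] at k3
  have k4 : ∑ k ∈ F, w k * (D k / d + S k / s) =
      (∑ k ∈ F, w k * D k) / d + (∑ k ∈ F, w k * S k) / s := by
    rw [Finset.sum_div, Finset.sum_div, ← Finset.sum_add_distrib]
    exact Finset.sum_congr rfl fun k _ => by ring
  have k5 : (∑ k ∈ F, w k * D k) / d ≤ 1 := (div_le_one hd).mpr hD
  have k6 : (∑ k ∈ F, w k * S k) / s ≤ 1 := (div_le_one hs).mpr hS
  linarith

end markov

section main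

theorem Ex_push {Ω Ω' : Type} [Fintype Ω] [Fintype Ω'] {q : Ω' → ℝ} {p : Ω → ℝ} {π : Ω' → Ω}
    (h : Push q p π) (f : Ω → ℝ) : Ex q (fun ω' => f (π ω')) = Ex p f := by
  classical
  unfold Ex
  have e : ∀ ω, p ω * f ω = ∑ ω', (if π ω' = ω then q ω' * f (π ω') else 0) := by
    intro ω
    rw [← h ω, Finset.sum_mul]
    refine Finset.sum_congr rfl fun ω' _ => ?_
    by_cases hx : π ω' = ω
    · rw [if_pos hx, if_pos hx, hx]
    · rw [if_neg hx, if_neg hx, zero_mul]
  rw [Finset.sum_congr rfl (fun ω _ => e ω), Finset.sum_comm]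
  refine Finset.sum_congr rfl fun ω' _ => ?_
  rw [Finset.sum_ite_eq]
  simp

variable {TT VV R : Type} [Fintype TT] [Fintype VV] {μ : TT → ℝ} {ϖ : VV → ℝ}
  {adj : TT → VV → Prop} {W : Finset VV} {q : ℝ}

open Classical in
/-- The measure of the common neighbours of a tuple of labels. -/
noncomputable def nb {ι : Type} (μ : TT → ℝ) (adj : TT → VV → Prop) (x : ι → VV) : ℝ :=
  ∑ t, if ∀ i, adj t (x i) then μ t else 0

open Classical in
/-- The common neighbours. -/
noncomputable def nbF {ι : Type} (adj : TT → VV → Prop) (x : ι → VV) : Finset TT :=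
  univ.filter fun t => ∀ i, adj t (x i)

theorem mem_nbF {ι : Type} {x : ι → VV} {t : TT} : t ∈ nbF adj x ↔ ∀ i, adj t (x i) := by
  unfold nbF
  simp

theorem nb_eq {ι : Type} (x : ι → VV) : nb μ adj x = ∑ t ∈ nbF adj x, μ t := by
  unfold nb nbF
  rw [Finset.sum_filter]

theorem nb_mono {ι ι' : Type} (hμ : ∀ t, 0 ≤ μ t) (x : ι → VV) (f : ι' → ι) :
    nb μ adj x ≤ nb μ adj (fun i => x (f i)) := by
  classical
  unfold nb
  refine Finset.sum_le_sum fun t _ => ?_
  by_cases h : ∀ i, adj t (x i)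
  · rw [if_pos h, if_pos fun i => h (f i)]
  · rw [if_neg h]
    split_ifs
    · exact hμ t
    · exact le_rfl

/-- Two copies of a tuple. -/
def two {Γ ι : Type} (x : ι → Γ → VV) (w : Γ × Γ) : ι ⊕ ι → VV :=
  Sum.elim (fun i => x i w.1) (fun i => x i w.2)

/-- **Samples**: see the head of the file. -/
theorem bi (h : RHyp μ ϖ adj W q) (hW1 : wW ϖ W ≤ 1) (X p : ℕ) (hpX : p ≤ X) (v : ℝ) (hv0 : 0 ≤ v)
    (hv1 : v ≤ 1) (pos : VV → ℕ) (hpos : ∀ a, pos a < 2 ^ X) (rest : VV → R) (F : Finset R)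
    (hF : ∀ a, rest a ∈ F) {M : ℝ} (hM : 1 ≤ M)
    (hat : ∀ G : Finset VV, (∀ a ∈ G, ∀ b ∈ G, pos a = pos b ∧ rest a = rest b) →
      ∑ a ∈ G, ϖ a ≤ M / (2 ^ X * F.card)) {s : ℝ} (hs : 0 < s) :
    ∃ (Γ : Type) (_ : Fintype Γ) (ν : Γ → ℝ) (x : Fin 3 → Γ → VV) (t₀ : TT) (c₁ c₂ : ℤ)
      (e : Fin 3 → R), (∀ ω, 0 ≤ ν ω) ∧ (∑ ω, ν ω = 1) ∧ 0 < μ t₀ ∧
      (∀ ω, 0 < ν ω → (∀ i, x i ω ∈ W ∧ adj t₀ (x i ω) ∧ 0 < ϖ (x i ω) ∧ rest (x i ω) = e i) ∧
        (pos (x 0 ω) : ℤ) = 2 ^ p * pos (x 1 ω) + c₁ ∧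
        (pos (x 2 ω) : ℤ) = ⌊v * (pos (x 1 ω) : ℝ)⌋ + c₂) ∧
      ((X : ℝ) - p) * Real.log 2 - 2 * (4 * Real.log 2 + 3 * (Real.log M +
        Real.log (2 / (q * wW ϖ W)))) ≤ H ν (fun ω => pos (x 1 ω)) ∧
      ∑ l ∈ range (X + 1), Pb (cp ν (fun ω => pos (x 0 ω) / 2 ^ (X - l)) ν
        (fun ω => pos (x 0 ω) / 2 ^ (X - l))) (fun w => nb μ adj (two x w) < Real.exp (-s)) ≤
        2 * ((X + 1) * (7 * Real.log (2 / q)) / s) := by
  classical
  have hq := h.q0
  have hW := h.W0
  have hroot1 := h.sum_one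
  obtain ⟨Q, hQ⟩ : ∃ Q : TT × VV → ℝ, Q = root μ ϖ adj W q := ⟨_, rfl⟩
  have hQ0 : ∀ w, 0 ≤ Q w := by rw [hQ]; exact h.nn
  have hQ1 : ∑ w, Q w = 1 := by rw [hQ]; exact h.sum_one
  have hF0 : (0 : ℝ) < F.card := by
    have : ∃ w, 0 < Q w := by
      by_contra hcon
      push Not at hcon
      have : ∑ w, Q w ≤ 0 := Finset.sum_nonpos fun w _ => hcon w
      linarith
    obtain ⟨w, _⟩ := this
    have : 0 < F.card := Finset.card_pos.mpr ⟨_, hF w.2⟩
    exact_mod_cast this
  obtain ⟨Γ, iΓ, r, ρ, y, hr, hl, hp, he, hi⟩ := copies hQ0 (fun w : TT × VV => w.1) 3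
  have hr1 : ∑ ω, r ω = 1 := by rw [(hp 0).sum, hQ1]
  -- the labels
  obtain ⟨x, hx⟩ : ∃ x : Fin 3 → Γ → VV, x = fun i ω => (ρ i ω).2 := ⟨_, rfl⟩
  have hsup : ∀ i ω, 0 < r ω → x i ω ∈ W ∧ adj (y ω) (x i ω) ∧ 0 < ϖ (x i ω) ∧ 0 < μ (y ω) := by
    intro i ω hω
    have a1 := (hp i).pos hr hω
    rw [hQ] at a1
    obtain ⟨_, b2, b3, b4, b5⟩ := h.supp a1
    rw [he i ω hω] at b3 b4
    rw [hx]
    exact ⟨b2, b3, b5, b4⟩
  have hHy : H r y = H Q (fun w => w.1) := H_law hl
  have hlq : 0 ≤ Real.log (2 / q) := by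
    refine Real.log_nonneg ?_
    rw [le_div_iff₀ hq, one_mul]
    obtain ⟨a, ha, ha0⟩ : ∃ a ∈ W, 0 < ϖ a := by
      by_contra hcon
      push Not at hcon
      have : wW ϖ W ≤ 0 := Finset.sum_nonpos hcon
      linarith
    obtain ⟨G, _, hG⟩ := h.deg a ha ha0
    have : ∑ t ∈ G, μ t ≤ ∑ t, μ t :=
      Finset.sum_le_sum_of_subset_of_nonneg (Finset.subset_univ _) fun t _ _ => h.mnn t
    have := h.m1
    linarith
  -- information of the three labels
  have hinfo : H r y - 3 * Real.log (2 / q) ≤ CH r y (fun ω i => x i ω) := by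
    have k := info_iid hQ0 hQ1 (fun w : TT × VV => w.1) hr hr1 hl hp (fun _ w => w.2)
      (hi (fun _ w => w.2))
    have k2 : ∑ i : Fin 3, (H Q (fun w : TT × VV => w.1) -
        CH Q (fun w => w.1) (fun w => w.2)) ≤ 3 * Real.log (2 / q) := by
      rw [Finset.sum_const, Finset.card_univ, Fintype.card_fin, nsmul_eq_mul]
      have := h.info
      rw [← hQ] at this
      push_cast
      linarith
    rw [hx]
    linarith
  -- the root against `μ`
  have hExy : Ex r (fun ω => -Real.log (μ (y ω))) ≤ H r y + Real.log (2 / q) := by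
    have k := h.ex_root
    rw [← hQ] at k
    rw [hHy]
    refine le_trans (le_of_eq ?_) k
    rw [← Ex_push (hp 0) (fun w => -Real.log (μ w.1))]
    unfold Ex
    refine Finset.sum_congr rfl fun ω _ => ?_
    rcases (hr ω).eq_or_lt with h0 | h0
    · rw [← h0, zero_mul, zero_mul]
    · show r ω * -Real.log (μ (y ω)) = r ω * -Real.log (μ (ρ 0 ω).1)
      rw [he 0 ω h0]
  -- the relations
  obtain ⟨Λ, hΛ⟩ : ∃ Λ : Γ → ℤ × (ℤ × (Fin 3 → R)), Λ = fun ω =>
    ((pos (x 0 ω) : ℤ) - 2 ^ p * pos (x 1 ω),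
      ((pos (x 2 ω) : ℤ) - ⌊v * (pos (x 1 ω) : ℝ)⌋, fun i => rest (x i ω))) := ⟨_, rfl⟩
  obtain ⟨z, hz⟩ : ∃ z : Γ → (ℤ × (ℤ × (Fin 3 → R))) × TT, z = fun ω => (Λ ω, y ω) := ⟨_, rfl⟩
  have hΛd : Det r (fun ω i => x i ω) Λ := by
    intro ω ω' _ _ hh
    have : ∀ i, x i ω = x i ω' := fun i => congrFun hh i
    rw [hΛ]
    simp only [this]
  -- the copies
  have hcopy : ∀ l, s * Pb (cp r (fun ω => (pos (x 0 ω) / 2 ^ (X - l), z ω)) r
      (fun ω => (pos (x 0 ω) / 2 ^ (X - l), z ω)))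
      (fun w => nb μ adj (two x w) < Real.exp (-s)) ≤ 7 * Real.log (2 / q) := by
    intro l
    obtain ⟨pre, hpre⟩ : ∃ pre : Γ → ℕ, pre = fun ω => pos (x 0 ω) / 2 ^ (X - l) := ⟨_, rfl⟩
    have e1 : cp r (fun ω => (pre ω, z ω)) r (fun ω => (pre ω, z ω)) =
        cp r (fun ω => ((pre ω, Λ ω), y ω)) r (fun ω => ((pre ω, Λ ω), y ω)) := by
      have hf : Function.Injective (fun u : (ℕ × (ℤ × (ℤ × (Fin 3 → R)))) × TT =>
          (u.1.1, (u.1.2, u.2))) := by
        intro u u' huu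
        simp only [Prod.mk.injEq] at huu
        exact Prod.ext (Prod.ext huu.1 huu.2.1) huu.2.2
      have := cp_reenc (p := r) (fun ω => ((pre ω, Λ ω), y ω)) hf
      rw [hz]
      exact this
    have e2 : (fun ω => (pos (x 0 ω) / 2 ^ (X - l), z ω)) = fun ω => (pre ω, z ω) := by rw [hpre]
    rw [e2, e1]
    obtain ⟨P, hP⟩ : ∃ P : Γ × Γ → ℝ,
      P = cp r (fun ω => ((pre ω, Λ ω), y ω)) r (fun ω => ((pre ω, Λ ω), y ω)) := ⟨_, rfl⟩
    have hP0 : ∀ w, 0 ≤ P w := by rw [hP]; exact cp_nn hr hr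
    have hPf : Push P r Prod.fst := by rw [hP]; exact push_fst hr (fun _ => rfl)
    have hPs : Push P r Prod.snd := by rw [hP]; exact push_snd hr (fun _ => rfl)
    have hP1 : ∑ w, P w = 1 := by rw [hPf.sum, hr1]
    have hPe : ∀ w, 0 < P w → y w.1 = y w.2 := fun w hw => by
      rw [hP] at hw
      have := glue_eq hw hr hr
      simp only [Prod.mk.injEq] at this
      exact this.2
    have k1 := info_cp' hr hr1 y (fun ω i => x i ω) (fun ω => (pre ω, Λ ω))
      (fun ω ω' a b hh => by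
        have h1 := hΛd ω ω' a b hh
        have h2 : x 0 ω = x 0 ω' := congrFun hh 0
        simp only [Prod.mk.injEq]
        refine ⟨?_, h1⟩
        rw [hpre]
        simp only [h2]) (a := 3 * Real.log (2 / q)) hinfo
    rw [← hP] at k1 ⊢
    have k2 := nbr_prob hP0 hP1 (fun w => y w.1) (fun w : Γ × Γ => two x w) h.mnn
      (fun u => nbF adj u)
      (fun w _ => by
        refine le_trans ?_ h.m1
        exact Finset.sum_le_sum_of_subset_of_nonneg (Finset.subset_univ _)
          fun t _ _ => h.mnn t)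
      (fun w hw => by
        refine mem_nbF.mpr fun i => ?_
        rcases i with i | i
        · exact (hsup i w.1 (hPf.pos hP0 hw)).2.1
        · show adj (y w.1) (x i w.2)
          rw [hPe w hw]
          exact (hsup i w.2 (hPs.pos hP0 hw)).2.1)
      (fun w hw => (hsup 0 w.1 (hPf.pos hP0 hw)).2.2.2) s
    have k3 : Ex P (fun w => -Real.log (μ (y w.1))) = Ex r (fun ω => -Real.log (μ (y ω))) :=
      Ex_push hPf (fun ω => -Real.log (μ (y ω)))
    have k4 : H P (fun w => y w.1) = H r y := hPf.H y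
    have k5 : CH P (fun w => y w.1) (fun w : Γ × Γ => two x w) =
        CH P (fun w => y w.1) (fun w => ((fun i => x i w.1), fun i => x i w.2)) := by
      refine CH_congr hP0 ?_ ?_ ?_ ?_
      · intro w w' _ _ hh
        exact (Prod.ext_iff.mp hh).1
      · intro w w' _ _ hh
        exact (Prod.ext_iff.mp hh).1
      · intro w w' _ _ hh
        simp only [Prod.mk.injEq]
        exact ⟨funext fun i => congrFun hh (Sum.inl i), funext fun i => congrFun hh (Sum.inr i)⟩
      · intro w w' _ _ hh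
        simp only [Prod.mk.injEq] at hh
        funext i
        rcases i with i | i
        · exact congrFun hh.1 i
        · exact congrFun hh.2 i
    simp only [nb_eq]
    rw [k3, k5] at k2
    rw [k4] at k1
    linarith
  -- entropy of the position
  obtain ⟨B, hB⟩ : ∃ B : ℝ, B = Real.log M + Real.log (2 / (q * wW ϖ W)) := ⟨_, rfl⟩
  have hB0 : 0 ≤ B := by
    rw [hB]
    refine add_nonneg (Real.log_nonneg hM) (Real.log_nonneg ?_)
    have hq2 : q ≤ 2 := by
      by_contra hcon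
      have : Real.log (2 / q) < 0 := Real.log_neg (by positivity) (by
        rw [div_lt_one hq]; exact not_le.mp hcon)
      linarith
    rw [le_div_iff₀ (by positivity), one_mul]
    calc q * wW ϖ W ≤ 2 * 1 := mul_le_mul hq2 hW1 hW.le (by norm_num)
      _ = 2 := by norm_num
  have hent : ((X : ℝ) - p) * Real.log 2 - (4 * Real.log 2 + 3 * B) ≤
      CH r (fun ω => pos (x 1 ω)) z := by
    -- everything is full given the root
    have f1 : ∀ i : Fin 3, (X : ℝ) * Real.log 2 + Real.log F.card - B ≤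
        CH Q (fun w => (pos w.2, rest w.2)) (fun w => w.1) := by
      intro i
      have hm : 0 < M / (2 ^ X * F.card) := by positivity
      have k := h.full (fun a => (pos a, rest a)) hm (fun G hG => hat G fun a ha b hb => by
        have := hG a ha b hb
        simpa only [Prod.mk.injEq] using this)
      rw [← hQ, Real.log_div (by positivity) (by positivity), Real.log_mul (by positivity)
        hF0.ne', Real.log_pow] at k
      rw [hB]
      linarith
    have f2 : 3 * ((X : ℝ) * Real.log 2 + Real.log F.card - B) ≤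
        CH r (fun ω i => (pos (x i ω), rest (x i ω))) y := by
      have k := hi (fun _ w => (pos w.2, rest w.2))
      have e : CH r (fun ω i => (pos (x i ω), rest (x i ω))) y =
          ∑ i : Fin 3, CH Q (fun w => (pos w.2, rest w.2)) (fun w => w.1) := by
        rw [hx]
        exact k
      rw [e, Finset.sum_const, Finset.card_univ, Fintype.card_fin, nsmul_eq_mul]
      have := f1 0
      push_cast
      linarith
    -- the values of the relations
    have f3 : CH r Λ y ≤ (2 * X + p + 4) * Real.log 2 + 3 * Real.log F.card := by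
      obtain ⟨G, hG⟩ : ∃ G : Finset (ℤ × (ℤ × (Fin 3 → R))), G =
        (Finset.Icc (-(2 ^ (p + X) : ℤ)) (2 ^ X)) ×ˢ ((Finset.Icc (-(2 ^ X : ℤ)) (2 ^ X)) ×ˢ
          (Fintype.piFinset fun _ : Fin 3 => F)) := ⟨_, rfl⟩
      have hm : ∀ ω, 0 < r ω → Λ ω ∈ G := by
        intro ω _
        rw [hΛ, hG]
        have a0 : ∀ i, ((pos (x i ω) : ℕ) : ℤ) < 2 ^ X := fun i => by
          have := hpos (x i ω)
          exact_mod_cast this
        have a1 : ∀ i, (0 : ℤ) ≤ (pos (x i ω) : ℕ) := fun i => Int.natCast_nonneg _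
        have hv2 : (0 : ℤ) ≤ ⌊v * (pos (x 1 ω) : ℝ)⌋ := Int.floor_nonneg.mpr (by positivity)
        have hv3 : ⌊v * (pos (x 1 ω) : ℝ)⌋ ≤ (pos (x 1 ω) : ℕ) := by
          have : v * (pos (x 1 ω) : ℝ) ≤ (pos (x 1 ω) : ℝ) := by
            have : (0 : ℝ) ≤ (pos (x 1 ω) : ℝ) := by positivity
            nlinarith
          have h2 := Int.floor_le_floor this
          rwa [Int.floor_natCast] at h2
        have hpow : (2 : ℤ) ^ (p + X) = 2 ^ p * 2 ^ X := pow_add _ _ _
        have h2p : (0 : ℤ) < 2 ^ p := by positivity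
        simp only [Finset.mem_product, Finset.mem_Icc, Fintype.mem_piFinset]
        have b0 := a0 0
        have b1 := a0 1
        have b2 := a0 2
        have d0 := a1 0
        have d1 := a1 1
        have d2 := a1 2
        have g1 : (2 : ℤ) ^ p * (pos (x 1 ω) : ℕ) ≤ 2 ^ p * 2 ^ X :=
          mul_le_mul_of_nonneg_left b1.le h2p.le
        have g2 : (0 : ℤ) ≤ 2 ^ p * (pos (x 1 ω) : ℕ) := mul_nonneg h2p.le d1
        refine ⟨⟨?_, ?_⟩, ⟨?_, ?_⟩, fun i => hF _⟩
        · rw [hpow]; linarith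
        · linarith
        · linarith
        · linarith
      have k := CH_le_card hr hr1 Λ y (fun _ => G) hm
      rw [Ex_const hr1] at k
      refine k.trans ?_
      have hc : (G.card : ℝ) ≤ 2 ^ (X + p + 2) * (2 ^ (X + 2) * (F.card : ℝ) ^ 3) := by
        rw [hG, Finset.card_product, Finset.card_product, Int.card_Icc, Int.card_Icc,
          Fintype.card_piFinset]
        have c1 : ((2 ^ X + 1 - -(2 ^ (p + X)) : ℤ).toNat : ℝ) ≤ 2 ^ (X + p + 2) := by
          have : (2 ^ X + 1 - -(2 ^ (p + X)) : ℤ).toNat = 2 ^ X + 1 + 2 ^ (p + X) := by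
            have : (2 ^ X + 1 - -(2 ^ (p + X)) : ℤ) = ((2 ^ X + 1 + 2 ^ (p + X) : ℕ) : ℤ) := by
              push_cast; ring
            rw [this, Int.toNat_natCast]
          rw [this]
          have h1 : 2 ^ X ≤ 2 ^ (X + p) := Nat.pow_le_pow_right (by norm_num) (by omega)
          have h2 : 1 ≤ 2 ^ (X + p) := Nat.one_le_two_pow
          have h3 : 2 ^ (p + X) = 2 ^ (X + p) := by rw [add_comm]
          have h4 : 2 ^ (X + p + 2) = 4 * 2 ^ (X + p) := by rw [pow_add]; ring
          have : 2 ^ X + 1 + 2 ^ (p + X) ≤ 2 ^ (X + p + 2) := by omega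
          exact_mod_cast this
        have c2 : ((2 ^ X + 1 - -(2 ^ X) : ℤ).toNat : ℝ) ≤ 2 ^ (X + 2) := by
          have : (2 ^ X + 1 - -(2 ^ X) : ℤ).toNat = 2 ^ X + 1 + 2 ^ X := by
            have : (2 ^ X + 1 - -(2 ^ X) : ℤ) = ((2 ^ X + 1 + 2 ^ X : ℕ) : ℤ) := by
              push_cast; ring
            rw [this, Int.toNat_natCast]
          rw [this]
          have h2 : 1 ≤ 2 ^ X := Nat.one_le_two_pow
          have h4 : 2 ^ (X + 2) = 4 * 2 ^ X := by rw [pow_add]; ring
          have : 2 ^ X + 1 + 2 ^ X ≤ 2 ^ (X + 2) := by omega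
          exact_mod_cast this
        have c3 : ((∏ _i : Fin 3, F.card : ℕ) : ℝ) = (F.card : ℝ) ^ 3 := by
          rw [Finset.prod_const, Finset.card_univ, Fintype.card_fin]
          push_cast
          ring
        push_cast at c1 c2 c3 ⊢
        rw [c3]
        exact mul_le_mul c1 (mul_le_mul_of_nonneg_right c2 (by positivity)) (by positivity)
          (by positivity)
      have hGc : (0 : ℝ) < G.card := by
        obtain ⟨ω, hω⟩ : ∃ ω, 0 < r ω := by
          by_contra hcon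
          push Not at hcon
          have : ∑ ω, r ω ≤ 0 := Finset.sum_nonpos fun ω _ => hcon ω
          linarith
        have : 0 < G.card := Finset.card_pos.mpr ⟨_, hm ω hω⟩
        exact_mod_cast this
      refine (Real.log_le_log hGc hc).trans (le_of_eq ?_)
      rw [Real.log_mul (by positivity) (by positivity), Real.log_mul (by positivity)
        (by positivity), Real.log_pow, Real.log_pow, Real.log_pow]
      push_cast
      ring
    have f4 : CH r (fun ω i => (pos (x i ω), rest (x i ω))) y ≤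
        CH r (fun ω => (pos (x 1 ω), Λ ω)) y := by
      refine CH_mono_left hr ?_
      intro ω ω' _ _ hh
      rw [hΛ] at hh
      simp only [Prod.mk.injEq] at hh
      obtain ⟨⟨g1, g2, g3, g4⟩, g5⟩ := hh
      have p0 : pos (x 0 ω) = pos (x 0 ω') := by
        rw [g1] at g2
        have : (pos (x 0 ω) : ℤ) = pos (x 0 ω') := by linarith
        exact_mod_cast this
      have p2 : pos (x 2 ω) = pos (x 2 ω') := by
        rw [g1] at g3
        have : (pos (x 2 ω) : ℤ) = pos (x 2 ω') := by linarith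
        exact_mod_cast this
      funext i
      have hr' := congrFun g4 i
      fin_cases i
      · exact Prod.ext p0 hr'
      · exact Prod.ext g1 hr'
      · exact Prod.ext p2 hr'
    have f5 : CH r (fun ω => (pos (x 1 ω), Λ ω)) y =
        CH r (fun ω => pos (x 1 ω)) z + CH r Λ y := by
      rw [CH_chain hr, hz, add_comm]
    linarith
  -- a good value
  have hdis : ∀ l, Pb (cp r (fun ω => (pos (x 0 ω) / 2 ^ (X - l), z ω)) r
      (fun ω => (pos (x 0 ω) / 2 ^ (X - l), z ω))) (fun w => nb μ adj (two x w) < Real.exp (-s)) =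
      ∑ k ∈ univ.image z, law r z k * Pb (cp (cond r z k) (fun ω => pos (x 0 ω) / 2 ^ (X - l))
        (cond r z k) (fun ω => pos (x 0 ω) / 2 ^ (X - l)))
        (fun w => nb μ adj (two x w) < Real.exp (-s)) :=
    fun l => Pb_dis hr z (fun ω => pos (x 0 ω) / 2 ^ (X - l)) _
  have hlz : ∑ k ∈ univ.image z, law r z k = 1 := by rw [sum_law, hr1]
  obtain ⟨D, hD⟩ : ∃ D : (ℤ × (ℤ × (Fin 3 → R))) × TT → ℝ, D = fun k =>
    ((X : ℝ) - p) * Real.log 2 - H (cond r z k) (fun ω => pos (x 1 ω)) := ⟨_, rfl⟩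
  obtain ⟨S, hS⟩ : ∃ S : (ℤ × (ℤ × (Fin 3 → R))) × TT → ℝ, S = fun k =>
    ∑ l ∈ range (X + 1), Pb (cp (cond r z k) (fun ω => pos (x 0 ω) / 2 ^ (X - l))
      (cond r z k) (fun ω => pos (x 0 ω) / 2 ^ (X - l)))
      (fun w => nb μ adj (two x w) < Real.exp (-s)) := ⟨_, rfl⟩
  have hln : 0 < Real.log 2 := Real.log_pos (by norm_num)
  have hDs : ∑ k ∈ univ.image z, law r z k * D k ≤ 4 * Real.log 2 + 3 * B := by
    have e : ∑ k ∈ univ.image z, law r z k * D k =
        ((X : ℝ) - p) * Real.log 2 - CH r (fun ω => pos (x 1 ω)) z := by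
      rw [CH_eq_sum hr, hD]
      simp only [mul_sub]
      rw [Finset.sum_sub_distrib, ← Finset.sum_mul, hlz, one_mul]
    rw [e]
    linarith
  have hSs : ∑ k ∈ univ.image z, law r z k * S k ≤ (X + 1) * (7 * Real.log (2 / q)) / s := by
    rw [hS]
    simp only [Finset.mul_sum]
    rw [Finset.sum_comm]
    have : ∀ l ∈ range (X + 1), ∑ k ∈ univ.image z, law r z k *
        Pb (cp (cond r z k) (fun ω => pos (x 0 ω) / 2 ^ (X - l))
        (cond r z k) (fun ω => pos (x 0 ω) / 2 ^ (X - l)))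
        (fun w => nb μ adj (two x w) < Real.exp (-s)) ≤ 7 * Real.log (2 / q) / s := by
      intro l _
      rw [← hdis l, le_div_iff₀ hs, mul_comm]
      exact hcopy l
    refine (Finset.sum_le_sum this).trans (le_of_eq ?_)
    rw [Finset.sum_const, Finset.card_range, nsmul_eq_mul]
    push_cast
    ring
  -- pointwise bounds
  have hcond : ∀ k, 0 < law r z k → (∀ ω, 0 ≤ cond r z k ω) ∧ ∑ ω, cond r z k ω = 1 ∧
      ∀ ω, 0 < cond r z k ω → 0 < r ω ∧ z ω = k := fun k hk =>
    ⟨cond_nonneg hr z k, sum_cond r z hk.ne', fun ω hω => (cond_pos_iff hr z k ω).mp hω⟩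
  have hD0 : ∀ k ∈ univ.image z, 0 < law r z k → 0 ≤ D k := by
    intro k _ hk
    obtain ⟨a1, a2, a3⟩ := hcond k hk
    rw [hD]
    have k1 : H (cond r z k) (fun ω => pos (x 1 ω)) ≤
        H (cond r z k) (fun ω => pos (x 0 ω) / 2 ^ p) := by
      refine H_mono a1 ?_
      intro ω ω' hω hω' hh
      have e1 := (a3 ω hω).2
      have e2 := (a3 ω' hω').2
      have e3 : (Λ ω).1 = (Λ ω').1 := by
        rw [← e2, hz] at e1
        simp only [Prod.mk.injEq] at e1
        rw [e1.1]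
      rw [hΛ] at e3
      simp only at e3
      have h2p : (0 : ℤ) < 2 ^ p := by positivity
      have e4 : ((pos (x 0 ω) : ℕ) : ℤ) / 2 ^ p = ((pos (x 0 ω') : ℕ) : ℤ) / 2 ^ p := by
        have := congrArg (fun n : ℕ => (n : ℤ)) hh
        push_cast at this
        exact this
      have e5 : ((pos (x 0 ω) : ℕ) : ℤ) = 2 ^ p * pos (x 1 ω) +
          ((pos (x 0 ω) : ℤ) - 2 ^ p * pos (x 1 ω)) := by ring
      have e6 : ((pos (x 0 ω') : ℕ) : ℤ) = 2 ^ p * pos (x 1 ω') +
          ((pos (x 0 ω) : ℤ) - 2 ^ p * pos (x 1 ω)) := by rw [e3]; ring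
      rw [e5, e6] at e4
      generalize ((pos (x 0 ω) : ℤ) - 2 ^ p * pos (x 1 ω)) = c at e4
      rw [add_comm, Int.add_mul_ediv_left _ _ h2p.ne', add_comm (2 ^ p * _) c,
        Int.add_mul_ediv_left _ _ h2p.ne'] at e4
      have : ((pos (x 1 ω) : ℕ) : ℤ) = pos (x 1 ω') := by linarith
      exact_mod_cast this
    have k2 : H (cond r z k) (fun ω => pos (x 0 ω) / 2 ^ p) ≤
        Real.log ((range (2 ^ (X - p))).card) := by
      refine H_le_log_card a1 a2 _ _ ?_
      intro ω _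
      rw [Finset.mem_range]
      refine Nat.div_lt_of_lt_mul ?_
      rw [← pow_add, Nat.add_sub_cancel' hpX]
      exact hpos _
    rw [Finset.card_range] at k2
    push_cast at k2
    rw [Real.log_pow, Nat.cast_sub hpX] at k2
    linarith
  have hS0 : ∀ k ∈ univ.image z, 0 < law r z k → 0 ≤ S k := by
    intro k _ hk
    obtain ⟨a1, _, _⟩ := hcond k hk
    rw [hS]
    exact Finset.sum_nonneg fun l _ => Pb_nn (cp_nn a1 a1) _
  have hlq' : 0 < (X + 1) * (7 * Real.log (2 / q)) / s := by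
    have : 0 < Real.log (2 / q) := by
      refine Real.log_pos ?_
      rw [lt_div_iff₀ hq, one_mul]
      obtain ⟨a, ha, ha0⟩ : ∃ a ∈ W, 0 < ϖ a := by
        by_contra hcon
        push Not at hcon
        have : wW ϖ W ≤ 0 := Finset.sum_nonpos hcon
        linarith
      obtain ⟨G, _, hG⟩ := h.deg a ha ha0
      have : ∑ t ∈ G, μ t ≤ ∑ t, μ t :=
        Finset.sum_le_sum_of_subset_of_nonneg (Finset.subset_univ _) fun t _ _ => h.mnn t
      have := h.m1
      linarith
    positivity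
  obtain ⟨k, _, hk0, hkD, hkS⟩ := good_value (fun k _ => law_nonneg hr z k) hlz
    (d := 4 * Real.log 2 + 3 * B) (by positivity) hlq' hDs hSs hD0 hS0
  obtain ⟨a1, a2, a3⟩ := hcond k hk0
  refine ⟨Γ, iΓ, cond r z k, x, k.2, k.1.1, k.1.2.1, k.1.2.2, a1, a2, ?_, ?_, ?_, ?_⟩
  · obtain ⟨ω, hω⟩ : ∃ ω, 0 < cond r z k ω := by
      by_contra hcon
      push Not at hcon
      have : ∑ ω, cond r z k ω ≤ 0 := Finset.sum_nonpos fun ω _ => hcon ω
      linarith
    have := (hsup 0 ω (a3 ω hω).1).2.2.2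
    rw [← (a3 ω hω).2, hz]
    exact this
  · intro ω hω
    obtain ⟨b1, b2⟩ := a3 ω hω
    have e1 : Λ ω = k.1 := by rw [← b2, hz]
    have e2 : y ω = k.2 := by rw [← b2, hz]
    rw [← e1, ← e2, hΛ]
    refine ⟨fun i => ?_, ?_, ?_⟩
    · obtain ⟨c1, c2, c3, _⟩ := hsup i ω b1
      exact ⟨c1, c2, c3, rfl⟩
    · simp only
      ring
    · simp only
      ring
  · rw [hD] at hkD
    simp only at hkD
    rw [hB] at hkD
    linarith
  · rw [hS] at hkS
    exact hkS

end main

end Pool.CLO97
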