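import Pool.Agent.H30.CH.Comp
import Pool.Agent.H19.BFL.Stmts

/-!
# Closure of legal tuples (row 366, K_COMB (B-i))

A weighted bipartite graph with sides `TT` (law `μ`) and `VV` (law `ϖ`). A tuple of labels is drawn
on a random root `θ ∈ TT`: independent labels adjacent to the root, and copies of them given the
root and given functions of the labels. Every label carries little information about the root, so
the law of the root given the labels, which is carried by the common neighbours of the labels, is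
not far from `μ`. Hence the labels have many common neighbours.

* `ex_nbr`, `nbr_prob`: the measure of the common neighbours against `H(θ | labels)`;
* `info_cp`: copies given the root and a function of the labels cost nothing more;
* `info_iid`: independent labels;
* `root_*`: the law of one label and its root.
-/

set_option autoImplicit false
set_option linter.unusedSectionVars false
set_option linter.unusedVariables false

namespace Pool.CLO97

open Finset
open Pool.Agent.H49.Ent Pool.Agent.H32.Dense Pool.CH30 Pool.BFL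

section nbr

variable {Ω TT S : Type} [Fintype Ω] {p : Ω → ℝ}

/-- The root is a common neighbour of the labels: Gibbs against `μ` on the common neighbours. -/
theorem ex_nbr (hp : ∀ ω, 0 ≤ p ω) (h1 : ∑ ω, p ω = 1) (θ : Ω → TT) (x : Ω → S)
    {μ : TT → ℝ} (hμ : ∀ t, 0 ≤ μ t) (N : S → Finset TT)
    (hN : ∀ ω, 0 < p ω → θ ω ∈ N (x ω)) (hpos : ∀ ω, 0 < p ω → 0 < μ (θ ω)) :
    Ex p (fun ω => -Real.log (∑ t ∈ N (x ω), μ t)) ≤
      Ex p (fun ω => -Real.log (μ (θ ω))) - CH p θ x := by
  classical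
  have hs : ∀ ω, 0 < p ω → 0 < ∑ t ∈ N (x ω), μ t := fun ω hω =>
    (hpos ω hω).trans_le (Finset.single_le_sum (fun t _ => hμ t) (hN ω hω))
  have k := CH_le_cross hp h1 θ x
    (fun s t => if t ∈ N s then μ t / ∑ t ∈ N s, μ t else 0)
    (fun ω hω => by
      simp only [hN ω hω, if_true]
      exact div_pos (hpos ω hω) (hs ω hω))
    (fun s t => by
      split_ifs
      · exact div_nonneg (hμ t) (Finset.sum_nonneg fun t _ => hμ t)
      · exact le_rfl)
    (fun ω hω F => by
      rw [← Finset.sum_filter, ← Finset.sum_div, div_le_one (hs ω hω)]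
      refine Finset.sum_le_sum_of_subset_of_nonneg ?_ (fun t _ _ => hμ t)
      intro t ht
      exact (Finset.mem_filter.mp ht).2)
  have e : Ex p (fun ω => -Real.log (if θ ω ∈ N (x ω) then μ (θ ω) / ∑ t ∈ N (x ω), μ t else 0)) =
      Ex p (fun ω => -Real.log (μ (θ ω))) - Ex p (fun ω => -Real.log (∑ t ∈ N (x ω), μ t)) := by
    rw [← Ex_sub]
    unfold Ex
    refine Finset.sum_congr rfl fun ω _ => ?_
    rcases (hp ω).eq_or_lt with h0 | h0
    · rw [← h0, zero_mul, zero_mul]
    · simp only [hN ω h0, if_true]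
      rw [Real.log_div (hpos ω h0).ne' (hs ω h0).ne']
      ring
  rw [e] at k
  linarith

/-- **Few common neighbours are improbable.** -/
theorem nbr_prob (hp : ∀ ω, 0 ≤ p ω) (h1 : ∑ ω, p ω = 1) (θ : Ω → TT) (x : Ω → S)
    {μ : TT → ℝ} (hμ : ∀ t, 0 ≤ μ t) (N : S → Finset TT)
    (hN1 : ∀ ω, 0 < p ω → ∑ t ∈ N (x ω), μ t ≤ 1)
    (hN : ∀ ω, 0 < p ω → θ ω ∈ N (x ω)) (hpos : ∀ ω, 0 < p ω → 0 < μ (θ ω)) (s : ℝ) :
    s * Pb p (fun ω => ∑ t ∈ N (x ω), μ t < Real.exp (-s)) ≤
      Ex p (fun ω => -Real.log (μ (θ ω))) - CH p θ x := by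
  classical
  refine le_trans ?_ (ex_nbr hp h1 θ x hμ N hN hpos)
  unfold Pb Ex
  rw [Finset.mul_sum]
  refine Finset.sum_le_sum fun ω _ => ?_
  rcases (hp ω).eq_or_lt with h0 | h0
  · rw [← h0]
    simp
  · have hs : 0 < ∑ t ∈ N (x ω), μ t :=
      (hpos ω h0).trans_le (Finset.single_le_sum (fun t _ => hμ t) (hN ω h0))
    split_ifs with hlt
    · have k := Real.log_lt_log hs hlt
      rw [Real.log_exp] at k
      have := mul_le_mul_of_nonneg_left (show s ≤ -Real.log (∑ t ∈ N (x ω), μ t) by linarith) h0.le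
      linarith
    · rw [mul_zero]
      exact mul_nonneg h0.le (by
        have := Real.log_nonpos hs.le (hN1 ω h0)
        linarith)

end nbr

section copy

variable {Ω TT S K : Type} [Fintype Ω] {p : Ω → ℝ}

/-- `I(X; Z) = I(Z; X)`. -/
theorem mi_symm (hp : ∀ ω, 0 ≤ p ω) {S T : Type} (X : Ω → S) (Z : Ω → T) :
    H p X - CH p X Z = H p Z - CH p Z X := by
  unfold CH
  have : H p (fun ω => (X ω, Z ω)) = H p (fun ω => (Z ω, X ω)) :=
    H_congr hp (fun _ _ _ _ h => by simp only [Prod.mk.injEq] at h ⊢; tauto)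
      (fun _ _ _ _ h => by simp only [Prod.mk.injEq] at h ⊢; tauto)
  rw [this]
  ring

/-- **Copies** given the root and a function `Λ` of the labels: the pair has at most twice the
information. -/
theorem info_cp (hp : ∀ ω, 0 ≤ p ω) (θ : Ω → TT) (x : Ω → S) (Λ : Ω → K) (hΛ : Det p x Λ) :
    2 * CH p θ x - CH p θ Λ ≤
      CH (cp p (fun ω => (Λ ω, θ ω)) p (fun ω => (Λ ω, θ ω))) (fun w => θ w.1)
        (fun w => (x w.1, x w.2)) := by
  obtain ⟨c, hc⟩ : ∃ c : Ω → K × TT, c = fun ω => (Λ ω, θ ω) := ⟨_, rfl⟩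
  rw [← hc]
  obtain ⟨P, hP⟩ : ∃ P : Ω × Ω → ℝ, P = cp p c p c := ⟨_, rfl⟩
  have h0 : ∀ w, 0 ≤ P w := by rw [hP]; exact cp_nn hp hp
  have heq : ∀ w, 0 < P w → Λ w.1 = Λ w.2 ∧ θ w.1 = θ w.2 := fun w hw => by
    rw [hP] at hw
    have := glue_eq hw hp hp
    rw [hc] at this
    simpa only [Prod.mk.injEq] using this
  have hf : Push P p Prod.fst := by rw [hP]; exact push_fst hp (fun _ => rfl)
  have hs : Push P p Prod.snd := by rw [hP]; exact push_snd hp (fun _ => rfl)
  have hd : Det p (fun ω => (x ω, θ ω)) c := by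
    intro ω ω' a b h
    rw [hc]
    simp only [Prod.mk.injEq] at h ⊢
    exact ⟨hΛ ω ω' a b h.1, h.2⟩
  -- the joint entropy
  have e1 : H P (fun w => (θ w.1, (x w.1, x w.2))) =
      2 * H p (fun ω => (x ω, θ ω)) - H p c := by
    have k := H_glue_pair (Z₁ := c) (Z₂ := c) hp hp (fun _ => rfl)
      (X := fun ω => (x ω, θ ω)) (Y := fun ω => (x ω, θ ω)) hd hd
    rw [show glue p p c c = P from hP.symm] at k
    rw [show H P (fun w => (θ w.1, (x w.1, x w.2))) =
      H P (fun w => ((x w.1, θ w.1), (x w.2, θ w.2))) from ?_, k]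
    · ring
    · refine H_congr h0 ?_ ?_
      · intro w w' _ _ h
        simp only [Prod.mk.injEq] at h ⊢
        tauto
      · intro w w' hw hw' h
        simp only [Prod.mk.injEq] at h ⊢
        rw [← (heq w hw).2, ← (heq w' hw').2]
        tauto
  have e2 : H P (fun w => (x w.1, x w.2)) ≤ H p x + CH p x Λ := by
    have a1 : H P (fun w => (x w.1, x w.2)) =
        H P (fun w => x w.1) + CH P (fun w => x w.2) (fun w => x w.1) := by
      unfold CH
      have : H P (fun w => (x w.1, x w.2)) = H P (fun w => (x w.2, x w.1)) :=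
        H_congr h0 (fun _ _ _ _ h => by simp only [Prod.mk.injEq] at h ⊢; tauto)
          (fun _ _ _ _ h => by simp only [Prod.mk.injEq] at h ⊢; tauto)
      rw [this]
      ring
    have a2 : CH P (fun w => x w.2) (fun w => x w.1) ≤ CH P (fun w => x w.2) (fun w => Λ w.1) :=
      CH_mono_cond h0 (fun w w' hw hw' h => hΛ _ _ (hf.pos h0 hw) (hf.pos h0 hw') h)
    have a3 : CH P (fun w => x w.2) (fun w => Λ w.1) = CH P (fun w => x w.2) (fun w => Λ w.2) :=
      CH_supp h0 (fun _ _ => rfl) (fun w hw => (heq w hw).1)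
    rw [a1, hf.H x, ← hs.CH x Λ]
    linarith
  have e3 : CH p x Λ = H p x - H p Λ := by
    unfold CH
    rw [H_congr hp (X := fun ω => (x ω, Λ ω)) (Y := x)]
    · intro ω ω' _ _ h
      exact Prod.ext_iff.mp h |>.1
    · intro ω ω' a b h
      exact Prod.ext h (hΛ ω ω' a b h)
  have e4 : H p c = H p (fun ω => (θ ω, Λ ω)) := by
    rw [hc]
    exact H_congr hp (fun _ _ _ _ h => by simp only [Prod.mk.injEq] at h ⊢; tauto)
      (fun _ _ _ _ h => by simp only [Prod.mk.injEq] at h ⊢; tauto)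
  have e5 : H p (fun ω => (x ω, θ ω)) = H p (fun ω => (θ ω, x ω)) :=
    H_congr hp (fun _ _ _ _ h => by simp only [Prod.mk.injEq] at h ⊢; tauto)
      (fun _ _ _ _ h => by simp only [Prod.mk.injEq] at h ⊢; tauto)
  rw [← hP]
  have g1 : CH P (fun w => θ w.1) (fun w => (x w.1, x w.2)) =
      H P (fun w => (θ w.1, (x w.1, x w.2))) - H P (fun w => (x w.1, x w.2)) := rfl
  have g2 : CH p θ x = H p (fun ω => (θ ω, x ω)) - H p x := rfl
  have g3 : CH p θ Λ = H p (fun ω => (θ ω, Λ ω)) - H p Λ := rfl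
  rw [g1, g2, g3]
  linarith

/-- The same, with the entropy of the root. -/
theorem info_cp' (hp : ∀ ω, 0 ≤ p ω) (h1 : ∑ ω, p ω = 1) (θ : Ω → TT) (x : Ω → S) (Λ : Ω → K)
    (hΛ : Det p x Λ) {a : ℝ} (ha : H p θ - a ≤ CH p θ x) :
    H (cp p (fun ω => (Λ ω, θ ω)) p (fun ω => (Λ ω, θ ω))) (fun w => θ w.1) - 2 * a ≤
      CH (cp p (fun ω => (Λ ω, θ ω)) p (fun ω => (Λ ω, θ ω))) (fun w => θ w.1)
        (fun w => (x w.1, x w.2)) := by
  have k := info_cp hp θ x Λ hΛ
  have hf : Push (cp p (fun ω => (Λ ω, θ ω)) p (fun ω => (Λ ω, θ ω))) p Prod.fst :=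
    push_fst hp (fun _ => rfl)
  rw [hf.H θ]
  have : CH p θ Λ ≤ H p θ := by
    have k := subadd hp h1 (X := θ) (Y := Λ) (W := fun ω => (θ ω, Λ ω))
      (fun _ _ _ _ h => Prod.ext (Prod.ext_iff.mp h).1 (Prod.ext_iff.mp h).2)
    unfold CH
    linarith
  linarith

end copy

section iid

variable {Λ Γ K S : Type} [Fintype Λ] [Fintype Γ]

/-- Subadditivity for finitely many variables. -/
theorem H_pi_le {R : ℕ} {r : Γ → ℝ} (hr : ∀ ω, 0 ≤ r ω) (h1 : ∑ ω, r ω = 1)
    (X : Fin R → Γ → S) : H r (fun ω i => X i ω) ≤ ∑ i, H r (X i) := by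
  induction R with
  | zero =>
    rw [Fin.sum_univ_zero]
    have : H r (fun ω (i : Fin 0) => X i ω) = 0 := by
      rw [H_congr hr (X := fun _ => ()) (Y := fun ω (i : Fin 0) => X i ω)]
      · exact H_const h1 ()
      · intro _ _ _ _ _
        funext i
        exact i.elim0
      · intro _ _ _ _ _
        rfl
    exact this.le
  | succ R ih =>
    rw [Fin.sum_univ_succ]
    have e1 : H r (fun ω i => X i ω) = H r (fun ω => (X 0 ω, fun i : Fin R => X i.succ ω)) := by
      refine H_congr hr ?_ ?_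
      · intro w w' _ _ h
        simp only [Prod.mk.injEq] at h
        funext i
        refine Fin.cases ?_ (fun i => ?_) i
        · exact h.1
        · exact congrFun h.2 i
      · intro w w' _ _ h
        exact Prod.ext (congrFun h 0) (funext fun i : Fin R => congrFun h i.succ)
    rw [e1]
    have k1 := subadd hr h1 (X := X 0) (Y := fun ω (i : Fin R) => X i.succ ω)
      (W := fun ω => (X 0 ω, fun i : Fin R => X i.succ ω)) (fun _ _ _ _ h => h)
    have k2 := ih (fun i => X i.succ)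
    linarith

/-- **Independent labels** given the root `z`: the information is at most the sum. The hypotheses
are the output of `Pool.CH30.copies`. -/
theorem info_iid {R : ℕ} {q : Λ → ℝ} (hq : ∀ ω, 0 ≤ q ω) (hq1 : ∑ ω, q ω = 1) (z : Λ → K)
    {r : Γ → ℝ} {ρ : Fin R → Γ → Λ} {y : Γ → K} (hr : ∀ ω, 0 ≤ r ω) (hr1 : ∑ ω, r ω = 1)
    (hl : ∀ s, law r y s = law q z s) (hp : ∀ i, Push r q (ρ i)) (X : Fin R → Λ → S)
    (hi : CH r (fun ω i => X i (ρ i ω)) y = ∑ i, CH q (X i) z) :
    H r y - ∑ i, (H q z - CH q z (X i)) ≤ CH r y (fun ω i => X i (ρ i ω)) := by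
  have k1 := mi_symm hr (fun ω i => X i (ρ i ω)) y
  have k2 : ∀ i, H q (X i) - CH q (X i) z = H q z - CH q z (X i) := fun i => mi_symm hq (X i) z
  have k3 := H_pi_le hr hr1 (fun i ω => X i (ρ i ω))
  have k4 : ∑ i, H r (fun ω => X i (ρ i ω)) = ∑ i, H q (X i) :=
    Finset.sum_congr rfl fun i _ => (hp i).H (X i)
  have k5 : ∑ i, (H q z - CH q z (X i)) = ∑ i, H q (X i) - ∑ i, CH q (X i) z := by
    rw [← Finset.sum_sub_distrib]
    exact Finset.sum_congr rfl fun i _ => (k2 i).symm
  rw [k5]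
  linarith

end iid

/-! ### The law of one label and its root -/

section root

theorem H_le_cross {Ω S : Type} [Fintype Ω] {p : Ω → ℝ} (hp : ∀ ω, 0 ≤ p ω) (h1 : ∑ ω, p ω = 1)
    (X : Ω → S) {om : S → ℝ} (h0 : ∀ x, 0 ≤ om x) (hs : ∀ F : Finset S, ∑ x ∈ F, om x ≤ 1)
    (hpos : ∀ ω, 0 < p ω → 0 < om (X ω)) : H p X ≤ Ex p (fun ω => -Real.log (om (X ω))) := by
  have k := CH_le_cross hp h1 X (fun _ => ()) (fun _ x => om x) hpos (fun _ x => h0 x)
    (fun _ _ F => hs F)
  have e1 : H p (fun ω => (X ω, ())) = H p X :=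
    H_congr hp (fun _ _ _ _ h => Prod.ext h rfl) (fun _ _ _ _ h => (Prod.ext_iff.mp h).1)
  unfold CH at k
  rw [e1, H_const h1, sub_zero] at k
  exact k

variable {TT VV : Type} [Fintype TT] [Fintype VV] (μ : TT → ℝ) (ϖ : VV → ℝ)
  (adj : TT → VV → Prop) (W : Finset VV) (q : ℝ)

open Classical in
/-- The measure of the labels of `W` adjacent to `t`. -/
noncomputable def wN (t : TT) : ℝ := ∑ v ∈ W, if adj t v then ϖ v else 0

/-- The measure of `W`. -/
noncomputable def wW : ℝ := ∑ v ∈ W, ϖ v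

/-- The roots with many labels. -/
def G0 (t : TT) : Prop := q / 2 * wW ϖ W ≤ wN ϖ adj W t

open Classical in
/-- The measure of the roots. -/
noncomputable def mG : ℝ := ∑ t, if G0 ϖ adj W q t then μ t else 0

open Classical in
/-- The law of the root and of one label. -/
noncomputable def root (w : TT × VV) : ℝ :=
  if G0 ϖ adj W q w.1 ∧ w.2 ∈ W ∧ adj w.1 w.2 then
    μ w.1 / mG μ ϖ adj W q * (ϖ w.2 / wN ϖ adj W w.1) else 0

variable {μ ϖ adj W q}

/-- The hypotheses: every label of `W` is adjacent to roots of measure at least `q`. -/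
structure RHyp (μ : TT → ℝ) (ϖ : VV → ℝ) (adj : TT → VV → Prop) (W : Finset VV) (q : ℝ) :
    Prop where
  mnn : ∀ t, 0 ≤ μ t
  m1 : ∑ t, μ t ≤ 1
  wnn : ∀ v, 0 ≤ ϖ v
  q0 : 0 < q
  W0 : 0 < wW ϖ W
  deg : ∀ v ∈ W, 0 < ϖ v → ∃ F : Finset TT, (∀ t ∈ F, adj t v) ∧ q ≤ ∑ t ∈ F, μ t

theorem wN_nn (hϖ : ∀ v, 0 ≤ ϖ v) (t : TT) : 0 ≤ wN ϖ adj W t := by
  unfold wN
  exact Finset.sum_nonneg fun v _ => by split_ifs <;> [exact hϖ v; exact le_rfl]

theorem wN_le (hϖ : ∀ v, 0 ≤ ϖ v) (t : TT) : wN ϖ adj W t ≤ wW ϖ W := by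
  unfold wN wW
  exact Finset.sum_le_sum fun v _ => by split_ifs <;> [exact le_rfl; exact hϖ v]

namespace RHyp

variable (h : RHyp μ ϖ adj W q)
include h

theorem wN_pos {t : TT} (ht : G0 ϖ adj W q t) : 0 < wN ϖ adj W t :=
  lt_of_lt_of_le (mul_pos (half_pos h.q0) h.W0) ht

theorem mG_ge : q / 2 ≤ mG μ ϖ adj W q := by
  classical
  have a1 : q * wW ϖ W ≤ ∑ t, μ t * wN ϖ adj W t := by
    have e : ∑ t, μ t * wN ϖ adj W t = ∑ v ∈ W, ∑ t, (if adj t v then μ t * ϖ v else 0) := by
      unfold wN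
      simp only [Finset.mul_sum]
      rw [Finset.sum_comm]
      refine Finset.sum_congr rfl fun v _ => Finset.sum_congr rfl fun t _ => ?_
      split_ifs <;> simp
    rw [e]
    unfold wW
    rw [Finset.mul_sum]
    refine Finset.sum_le_sum fun v hv => ?_
    rcases (h.wnn v).eq_or_lt with h0 | h0
    · rw [← h0, mul_zero]
      exact Finset.sum_nonneg fun t _ => by split_ifs <;> simp
    · obtain ⟨F, hF, hq⟩ := h.deg v hv h0
      have : (∑ t ∈ F, μ t) * ϖ v ≤ ∑ t, (if adj t v then μ t * ϖ v else 0) := by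
        rw [Finset.sum_mul]
        have : ∑ t ∈ F, μ t * ϖ v = ∑ t ∈ F, (if adj t v then μ t * ϖ v else 0) :=
          Finset.sum_congr rfl fun t ht => by rw [if_pos (hF t ht)]
        rw [this]
        exact Finset.sum_le_sum_of_subset_of_nonneg (Finset.subset_univ _) fun t _ _ => by
          split_ifs
          · exact mul_nonneg (h.mnn t) h0.le
          · exact le_rfl
      exact (mul_le_mul_of_nonneg_right hq h0.le).trans this
  have a2 : ∑ t, μ t * wN ϖ adj W t ≤
      mG μ ϖ adj W q * wW ϖ W + (∑ t, μ t) * (q / 2 * wW ϖ W) := by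
    unfold mG
    rw [Finset.sum_mul, Finset.sum_mul, ← Finset.sum_add_distrib]
    refine Finset.sum_le_sum fun t _ => ?_
    have hm := h.mnn t
    have hW := h.W0
    by_cases hg : G0 ϖ adj W q t
    · rw [if_pos hg]
      have k1 := mul_le_mul_of_nonneg_left (wN_le (adj := adj) (W := W) h.wnn t) hm
      have k2 : 0 ≤ μ t * (q / 2 * wW ϖ W) :=
        mul_nonneg hm (mul_nonneg (half_pos h.q0).le hW.le)
      linarith
    · rw [if_neg hg, zero_mul, zero_add]
      exact mul_le_mul_of_nonneg_left (not_le.mp hg).le hm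
  have a3 : (∑ t, μ t) * (q / 2 * wW ϖ W) ≤ q / 2 * wW ϖ W := by
    have := mul_le_mul_of_nonneg_right h.m1 (mul_nonneg (half_pos h.q0).le h.W0.le)
    linarith
  have a4 : q / 2 * wW ϖ W ≤ mG μ ϖ adj W q * wW ϖ W := by linarith
  exact le_of_mul_le_mul_right a4 h.W0

theorem mG_pos : 0 < mG μ ϖ adj W q := (half_pos h.q0).trans_le h.mG_ge

theorem nn : ∀ w, 0 ≤ root μ ϖ adj W q w := by
  intro w
  unfold root
  split_ifs
  · exact mul_nonneg (div_nonneg (h.mnn _) h.mG_pos.le) (div_nonneg (h.wnn _) (wN_nn h.wnn _))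
  · exact le_rfl

theorem supp {w : TT × VV} (hw : 0 < root μ ϖ adj W q w) :
    G0 ϖ adj W q w.1 ∧ w.2 ∈ W ∧ adj w.1 w.2 ∧ 0 < μ w.1 ∧ 0 < ϖ w.2 := by
  unfold root at hw
  split_ifs at hw with hc
  · refine ⟨hc.1, hc.2.1, hc.2.2, ?_, ?_⟩
    · rcases (h.mnn w.1).eq_or_lt with h0 | h0
      · rw [← h0, zero_div, zero_mul] at hw
        exact absurd hw (lt_irrefl _)
      · exact h0
    · rcases (h.wnn w.2).eq_or_lt with h0 | h0
      · rw [← h0, zero_div, mul_zero] at hw
        exact absurd hw (lt_irrefl _)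
      · exact h0
  · exact absurd hw (lt_irrefl _)

open Classical in
/-- The law of a function of the label and of the root. -/
theorem law_pair {S : Type} (f : VV → S) (a : S) (t : TT) :
    law (root μ ϖ adj W q) (fun w => (f w.2, w.1)) (a, t) =
      if G0 ϖ adj W q t then μ t / mG μ ϖ adj W q *
        ((∑ v ∈ W, if adj t v ∧ f v = a then ϖ v else 0) / wN ϖ adj W t) else 0 := by
  unfold law
  rw [Fintype.sum_prod_type, Finset.sum_eq_single t]
  · by_cases hg : G0 ϖ adj W q t
    · rw [if_pos hg, Finset.sum_div, Finset.mul_sum]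
      rw [← Finset.sum_subset (Finset.subset_univ W)]
      · refine Finset.sum_congr rfl fun v hv => ?_
        unfold root
        by_cases hf : f v = a
        · by_cases ha : adj t v
          · simp [hg, hv, ha, hf]
          · simp [ha]
        · simp [hf]
      · intro v _ hv
        unfold root
        simp [hv]
    · rw [if_neg hg]
      refine Finset.sum_eq_zero fun v _ => ?_
      unfold root
      simp [hg]
  · intro t' _ ht'
    refine Finset.sum_eq_zero fun v _ => ?_
    simp [ht']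
  · intro ht
    exact absurd (Finset.mem_univ _) ht

open Classical in
/-- The law of the root. -/
theorem law_fst (t : TT) : law (root μ ϖ adj W q) (fun w => w.1) t =
    if G0 ϖ adj W q t then μ t / mG μ ϖ adj W q else 0 := by
  have k := h.law_pair (fun _ => ()) () t
  have e : law (root μ ϖ adj W q) (fun w => w.1) t =
      law (root μ ϖ adj W q) (fun w => ((), w.1)) ((), t) := by
    unfold law
    refine Finset.sum_congr rfl fun w _ => ?_
    simp
  rw [e, k]
  split_ifs with hg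
  · have key : ∀ s : ℝ, s = wN ϖ adj W t →
        μ t / mG μ ϖ adj W q * (s / wN ϖ adj W t) = μ t / mG μ ϖ adj W q := by
      intro s hs
      rw [hs, div_self (h.wN_pos hg).ne', mul_one]
    refine key _ ?_
    unfold wN
    refine Finset.sum_congr rfl fun v _ => ?_
    simp
  · rfl

theorem sum_one : ∑ w, root μ ϖ adj W q w = 1 := by
  classical
  have e : ∑ w, root μ ϖ adj W q w = ∑ t, law (root μ ϖ adj W q) (fun w => w.1) t := by
    unfold law
    rw [Finset.sum_comm]
    refine Finset.sum_congr rfl fun w _ => ?_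
    rw [Finset.sum_ite_eq]
    simp
  rw [e, Finset.sum_congr rfl fun t _ => h.law_fst t]
  have : ∑ t, (if G0 ϖ adj W q t then μ t / mG μ ϖ adj W q else 0) =
      mG μ ϖ adj W q / mG μ ϖ adj W q := by
    rw [show mG μ ϖ adj W q / mG μ ϖ adj W q =
      (∑ t, if G0 ϖ adj W q t then μ t else 0) / mG μ ϖ adj W q from rfl, Finset.sum_div]
    refine Finset.sum_congr rfl fun t _ => ?_
    split_ifs <;> simp
  rw [this, div_self h.mG_pos.ne']

/-- The root against `μ`. -/
theorem ex_root : Ex (root μ ϖ adj W q) (fun w => -Real.log (μ w.1)) ≤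
    H (root μ ϖ adj W q) (fun w => w.1) + Real.log (2 / q) := by
  classical
  have hm := h.mG_pos
  have k : ∀ w, 0 < root μ ϖ adj W q w → -Real.log (μ w.1) ≤
      -Real.log (law (root μ ϖ adj W q) (fun w => w.1) w.1) + Real.log (2 / q) := by
    intro w hw
    obtain ⟨a1, _, _, a4, _⟩ := h.supp hw
    rw [h.law_fst, if_pos a1, Real.log_div a4.ne' hm.ne']
    have : Real.log (2 / q) + Real.log (mG μ ϖ adj W q) ≥ 0 := by
      rw [← Real.log_mul (by have := h.q0; positivity) hm.ne']
      refine Real.log_nonneg ?_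
      have := h.mG_ge
      have hq := h.q0
      calc (1 : ℝ) = 2 / q * (q / 2) := by field_simp
        _ ≤ 2 / q * mG μ ϖ adj W q := mul_le_mul_of_nonneg_left this (by positivity)
    linarith
  have e : H (root μ ϖ adj W q) (fun w => w.1) =
      Ex (root μ ϖ adj W q) (fun w => -Real.log (law (root μ ϖ adj W q) (fun w => w.1) w.1)) := by
    unfold H Ex
    rw [← Finset.sum_neg_distrib]
    exact Finset.sum_congr rfl fun w _ => by ring
  rw [e, ← Ex_const h.sum_one (Real.log (2 / q)), ← Ex_add]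
  exact Ex_mono h.nn (fun w hw => k w hw)

/-- The entropy of the label given the root. -/
theorem CH_label : CH (root μ ϖ adj W q) (fun w => w.2) (fun w => w.1) =
    Ex (root μ ϖ adj W q) (fun w => -Real.log (ϖ w.2 / wN ϖ adj W w.1)) := by
  classical
  rw [CH_eq_neg_sum h.nn]
  unfold Ex
  refine Finset.sum_congr rfl fun w _ => ?_
  rcases (h.nn w).eq_or_lt with h0 | h0
  · rw [← h0, zero_mul, zero_mul]
  · obtain ⟨a1, a2, a3, a4, a5⟩ := h.supp h0
    have hm := h.mG_pos
    beta_reduce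
    rw [h.law_pair (fun v => v), h.law_fst, if_pos a1, if_pos a1]
    have e : (∑ v ∈ W, if adj w.1 v ∧ v = w.2 then ϖ v else 0) = ϖ w.2 := by
      rw [Finset.sum_eq_single w.2]
      · simp [a3]
      · intro v _ hv
        simp [hv]
      · intro hv
        exact absurd a2 hv
    rw [e, mul_div_cancel_left₀ _ (div_pos a4 hm).ne']

/-- **One label carries little information about the root.** -/
theorem info : H (root μ ϖ adj W q) (fun w => w.1) - Real.log (2 / q) ≤
    CH (root μ ϖ adj W q) (fun w => w.1) (fun w => w.2) := by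
  classical
  have hW := h.W0
  have hq := h.q0
  have k1 := mi_symm h.nn (fun w : TT × VV => w.2) (fun w => w.1)
  have k2 : H (root μ ϖ adj W q) (fun w => w.2) ≤
      Ex (root μ ϖ adj W q) (fun w => -Real.log (if w.2 ∈ W then ϖ w.2 / wW ϖ W else 0)) := by
    refine H_le_cross h.nn h.sum_one (fun w : TT × VV => w.2)
      (om := fun v => if v ∈ W then ϖ v / wW ϖ W else 0) ?_ ?_ ?_
    · intro v
      split_ifs
      · exact div_nonneg (h.wnn v) hW.le
      · exact le_rfl
    · intro F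
      rw [← Finset.sum_filter, ← Finset.sum_div, div_le_one hW]
      exact Finset.sum_le_sum_of_subset_of_nonneg
        (fun v hv => (Finset.mem_filter.mp hv).2) (fun v _ _ => h.wnn v)
    · intro w hw
      obtain ⟨_, a2, _, _, a5⟩ := h.supp hw
      simp only [a2, if_true]
      exact div_pos a5 hW
  have k3 : Ex (root μ ϖ adj W q) (fun w => -Real.log (if w.2 ∈ W then ϖ w.2 / wW ϖ W else 0)) ≤
      Ex (root μ ϖ adj W q) (fun w => -Real.log (ϖ w.2 / wN ϖ adj W w.1)) + Real.log (2 / q) := by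
    rw [← Ex_const h.sum_one (Real.log (2 / q)), ← Ex_add]
    refine Ex_mono h.nn fun w hw => ?_
    obtain ⟨a1, a2, _, _, a5⟩ := h.supp hw
    rw [if_pos a2, Real.log_div a5.ne' hW.ne',
      Real.log_div a5.ne' (h.wN_pos a1).ne']
    have : Real.log (wW ϖ W) ≤ Real.log (2 / q) + Real.log (wN ϖ adj W w.1) := by
      rw [← Real.log_mul (by positivity) (h.wN_pos a1).ne']
      refine Real.log_le_log hW ?_
      have := mul_le_mul_of_nonneg_left a1 (show (0 : ℝ) ≤ 2 / q by positivity)
      calc wW ϖ W = 2 / q * (q / 2 * wW ϖ W) := by field_simp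
        _ ≤ _ := this
    linarith
  rw [← h.CH_label] at k3
  linarith

/-- Functions of the label with small atoms are full given the root. -/
theorem full {S : Type} (f : VV → S) {m : ℝ} (hm : 0 < m)
    (hf : ∀ F : Finset VV, (∀ v ∈ F, ∀ v' ∈ F, f v = f v') → ∑ v ∈ F, ϖ v ≤ m) :
    -Real.log m - Real.log (2 / (q * wW ϖ W)) ≤
      CH (root μ ϖ adj W q) (fun w => f w.2) (fun w => w.1) := by
  classical
  have hW := h.W0
  have hq := h.q0
  rw [CH_eq_neg_sum h.nn, ← Ex_const h.sum_one (-Real.log m - Real.log (2 / (q * wW ϖ W)))]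
  refine Ex_mono h.nn fun w hw => ?_
  obtain ⟨a1, a2, a3, a4, a5⟩ := h.supp hw
  have hmG := h.mG_pos
  have hN := h.wN_pos a1
  rw [h.law_pair f, h.law_fst, if_pos a1, if_pos a1,
    mul_div_cancel_left₀ _ (div_pos a4 hmG).ne']
  have s1 : (∑ v ∈ W, if adj w.1 v ∧ f v = f w.2 then ϖ v else 0) ≤ m := by
    rw [← Finset.sum_filter]
    refine hf _ fun v hv v' hv' => ?_
    rw [(Finset.mem_filter.mp hv).2.2, (Finset.mem_filter.mp hv').2.2]
  have s2 : 0 < (∑ v ∈ W, if adj w.1 v ∧ f v = f w.2 then ϖ v else 0) := by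
    refine lt_of_lt_of_le a5 ?_
    rw [← Finset.sum_filter]
    exact Finset.single_le_sum (f := ϖ) (fun v _ => h.wnn v)
      (Finset.mem_filter.mpr ⟨a2, a3, rfl⟩)
  have s3 : (∑ v ∈ W, if adj w.1 v ∧ f v = f w.2 then ϖ v else 0) / wN ϖ adj W w.1 ≤
      m * (2 / (q * wW ϖ W)) := by
    rw [div_le_iff₀ hN]
    refine s1.trans ?_
    have := mul_le_mul_of_nonneg_left a1 (show (0 : ℝ) ≤ m * (2 / (q * wW ϖ W)) by positivity)
    calc m = m * (2 / (q * wW ϖ W)) * (q / 2 * wW ϖ W) := by field_simp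
      _ ≤ _ := this
  have s4 := Real.log_le_log (div_pos s2 hN) s3
  rw [Real.log_mul hm.ne' (by positivity)] at s4
  linarith

end RHyp

end root

end Pool.CLO97
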