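import Pool.Agent.H97.QUAD.Bi

/-!
# Samples for a signal, with a fixed second copy (row 366, K_COMB (B-i))

`core`: as `Pool.CLO97.bi`, but a sample `ω'` is fixed, and the prefixes `pre w` depend on the
positions of the fixed sample and of the sample. The copy of the pair (sample, second sample) has
at most `12` units of information about the root.
-/

set_option autoImplicit false
set_option linter.unusedSectionVars false
set_option linter.unusedVariables false

namespace Pool.CLO97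

open Finset
open Pool.Agent.H49.Ent Pool.Agent.H32.Dense Pool.CH30 Pool.BFL

section push

variable {Ω Ω' C : Type} [Fintype Ω] [Fintype Ω'] {q : Ω' → ℝ} {p : Ω → ℝ} {π : Ω' → Ω}

theorem Pb_push (h : Push q p π) (E : Ω → Prop) : Pb q (fun ω' => E (π ω')) = Pb p E := by
  classical
  have k := Ex_push h (fun ω => if E ω then (1 : ℝ) else 0)
  unfold Ex at k
  unfold Pb
  simpa using k

/-- Copies of an image. -/
theorem cp_push' (h : Push q p π) (hp : ∀ ω, 0 ≤ p ω) (hq : ∀ ω, 0 ≤ q ω) (f : Ω → C) :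
    Push (cp q (fun ω => f (π ω)) q (fun ω => f (π ω))) (cp p f p f)
      (fun w => (π w.1, π w.2)) := by
  have a1 : Push (glue q q (fun ω => f (π ω)) (fun ω => f (π ω)))
      (glue p q f (fun ω => f (π ω))) (fun w => (π w.1, w.2)) :=
    push_left h f (fun ω => f (π ω))
  have a2 : Push (glue p q f (fun ω => f (π ω))) (glue p p f f) (fun w => (w.1, π w.2)) :=
    push_right hp h (fun _ => rfl)
  exact a2.comp a1

theorem Pb_cp_push (h : Push q p π) (hp : ∀ ω, 0 ≤ p ω) (hq : ∀ ω, 0 ≤ q ω) (f : Ω → C)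
    (E : Ω × Ω → Prop) :
    Pb (cp q (fun ω => f (π ω)) q (fun ω => f (π ω))) (fun w => E (π w.1, π w.2)) =
      Pb (cp p f p f) E :=
  Pb_push (cp_push' h hp hq f) E

end push

section pairs

variable {Ω K S : Type} [Fintype Ω] {p : Ω → ℝ}

/-- In a pair of copies given `z`, the first one has the law `p` given `z`, whatever is known of
the second. -/
theorem push_cond (hp : ∀ ω, 0 ≤ p ω) (z : Ω → K) (ξ : Ω → S) (k : K × S)
    (hk : 0 < law (cp p z p z) (fun w => (z w.1, ξ w.2)) k) :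
    Push (cond (cp p z p z) (fun w => (z w.1, ξ w.2)) k) (cond p z k.1) Prod.fst := by
  classical
  obtain ⟨a, b⟩ := k
  -- the weight of the second copy
  obtain ⟨m, hm⟩ : ∃ m : ℝ, m = law p (fun ω => (z ω, ξ ω)) (a, b) := ⟨_, rfl⟩
  have e1 : ∀ ω, (∑ ω', if z ω = a ∧ ξ ω' = b then cp p z p z (ω, ω') else 0) =
      (if z ω = a then p ω / law p z a * m else 0) := by
    intro ω
    by_cases h1 : z ω = a
    · rw [if_pos h1, hm]
      unfold law
      rw [Finset.mul_sum]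
      refine Finset.sum_congr rfl fun ω' _ => ?_
      unfold cp glue
      simp only [h1, true_and, Prod.mk.injEq]
      by_cases h2 : ξ ω' = b
      · by_cases h3 : z ω' = a
        · rw [if_pos h2, if_pos h3.symm, if_pos ⟨h3, h2⟩]
          unfold law
          ring
        · rw [if_pos h2, if_neg (fun h => h3 h.symm), if_neg (fun h => h3 h.1), mul_zero]
      · rw [if_neg h2, if_neg (fun h => h2 h.2), mul_zero]
    · rw [if_neg h1]
      refine Finset.sum_eq_zero fun ω' _ => ?_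
      rw [if_neg (fun h => h1 h.1)]
  have e2 : law (cp p z p z) (fun w => (z w.1, ξ w.2)) (a, b) = m := by
    have : law (cp p z p z) (fun w => (z w.1, ξ w.2)) (a, b) =
        ∑ ω, (if z ω = a then p ω / law p z a * m else 0) := by
      rw [← Finset.sum_congr rfl (fun ω _ => e1 ω)]
      unfold law
      rw [Fintype.sum_prod_type]
      simp only [Prod.mk.injEq]
    rw [this]
    have h3 : ∑ ω, (if z ω = a then p ω / law p z a * m else 0) =
        (∑ ω, if z ω = a then p ω else 0) / law p z a * m := by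
      rw [Finset.sum_div, Finset.sum_mul]
      refine Finset.sum_congr rfl fun ω _ => ?_
      split_ifs <;> simp
    rw [h3]
    have h4 : (∑ ω, if z ω = a then p ω else 0) = law p z a := rfl
    rw [h4]
    rcases (law_nonneg hp z a).eq_or_lt with h0 | h0
    · have : m = 0 := by
        refine le_antisymm ?_ (by rw [hm]; exact law_nonneg hp _ _)
        rw [hm, h0]
        unfold law
        refine Finset.sum_le_sum fun ω _ => ?_
        simp only [Prod.mk.injEq]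
        by_cases h1 : z ω = a
        · rw [if_pos h1]
          split_ifs <;> [exact le_rfl; exact hp ω]
        · rw [if_neg h1, if_neg (fun h => h1 h.1)]
      rw [this, mul_zero]
    · rw [div_self h0.ne', one_mul]
  rw [e2] at hk
  intro ω
  rw [Fintype.sum_prod_type, Finset.sum_eq_single ω]
  · have e3 : ∀ ω', (@ite ℝ (Prod.fst (ω, ω') = ω) (Classical.propDecidable _)
        (cond (cp p z p z) (fun w => (z w.1, ξ w.2)) (a, b) (ω, ω')) 0) =
        (if z ω = a ∧ ξ ω' = b then cp p z p z (ω, ω') else 0) / m := by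
      intro ω'
      rw [if_pos rfl]
      unfold Pool.Agent.H49.Ent.cond
      rw [e2]
      simp only [Prod.mk.injEq]
      split_ifs <;> simp
    rw [Finset.sum_congr rfl (fun ω' _ => e3 ω'), ← Finset.sum_div, e1 ω]
    unfold Pool.Agent.H49.Ent.cond
    simp only
    split_ifs with h1
    · field_simp
    · simp
  · intro b' _ hb'
    refine Finset.sum_eq_zero fun ω' _ => ?_
    rw [if_neg]
    exact hb'
  · intro h
    exact absurd (Finset.mem_univ _) h

end pairs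


section dis

variable {Ω K C : Type} [Fintype Ω] {p : Ω → ℝ}

theorem cp_supp (hp : ∀ ω, 0 ≤ p ω) {c c' : Ω → C} (h : ∀ ω, 0 < p ω → c ω = c' ω) :
    cp p c p c = cp p c' p c' := by
  classical
  funext w
  unfold cp glue
  rcases (hp w.1).eq_or_lt with h0 | h0
  · rw [← h0]
    simp
  rcases (hp w.2).eq_or_lt with h1 | h1
  · rw [← h1]
    simp
  have e : law p c (c w.1) = law p c' (c' w.1) := by
    unfold law
    refine Finset.sum_congr rfl fun ω _ => ?_
    rcases (hp ω).eq_or_lt with h2 | h2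
    · rw [← h2]
      simp
    · rw [h ω h2, h _ h0]
  rw [e, h _ h0, h _ h1]

/-- An average over the values. -/
theorem sum_val [DecidableEq K] (z : Ω → K) (G : K → ℝ) :
    ∑ k ∈ univ.image z, law p z k * G k = Ex p (fun ω => G (z ω)) := by
  classical
  unfold law Ex
  simp only [Finset.sum_mul]
  rw [Finset.sum_comm]
  refine Finset.sum_congr rfl fun ω _ => ?_
  rw [Finset.sum_eq_single (z ω)]
  · rw [if_pos rfl]
  · intro k _ hk
    rw [if_neg (Ne.symm hk), zero_mul]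
  · intro h
    exact absurd (Finset.mem_image_of_mem _ (Finset.mem_univ _)) h

/-- A value which is good for three averages. -/
theorem good_value3 {F : Finset K} {w D S T : K → ℝ} (hw : ∀ k ∈ F, 0 ≤ w k)
    (h1 : ∑ k ∈ F, w k = 1) {d s t : ℝ} (hd : 0 < d) (hs : 0 < s) (ht : 0 < t)
    (hD : ∑ k ∈ F, w k * D k ≤ d) (hS : ∑ k ∈ F, w k * S k ≤ s) (hT : ∑ k ∈ F, w k * T k ≤ t)
    (hD0 : ∀ k ∈ F, 0 < w k → 0 ≤ D k) (hS0 : ∀ k ∈ F, 0 < w k → 0 ≤ S k)
    (hT0 : ∀ k ∈ F, 0 < w k → 0 ≤ T k) :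
    ∃ k ∈ F, 0 < w k ∧ D k ≤ 3 * d ∧ S k ≤ 3 * s ∧ T k ≤ 3 * t := by
  by_contra hcon
  push Not at hcon
  have key : ∀ k ∈ F, 0 < w k → 3 < D k / d + S k / s + T k / t := by
    intro k hk h0
    have a1 := div_nonneg (hD0 k hk h0) hd.le
    have a2 := div_nonneg (hS0 k hk h0) hs.le
    have a3 := div_nonneg (hT0 k hk h0) ht.le
    by_cases c1 : D k ≤ 3 * d
    · by_cases c2 : S k ≤ 3 * s
      · have := hcon k hk h0 c1 c2
        have : 3 < T k / t := by rw [lt_div_iff₀ ht]; exact this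
        linarith
      · have : 3 < S k / s := by rw [lt_div_iff₀ hs]; exact not_le.mp c2
        linarith
    · have : 3 < D k / d := by rw [lt_div_iff₀ hd]; exact not_le.mp c1
      linarith
  have k1 : ∀ k ∈ F, w k * 3 ≤ w k * (D k / d + S k / s + T k / t) := by
    intro k hk
    rcases (hw k hk).eq_or_lt with h0 | h0
    · rw [← h0, zero_mul, zero_mul]
    · exact mul_le_mul_of_nonneg_left (key k hk h0).le h0.le
  have k2 : ∃ k ∈ F, w k * 3 < w k * (D k / d + S k / s + T k / t) := by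
    obtain ⟨k, hk, h0⟩ : ∃ k ∈ F, 0 < w k := by
      by_contra hno
      push Not at hno
      have : ∑ k ∈ F, w k ≤ 0 := Finset.sum_nonpos hno
      linarith
    exact ⟨k, hk, mul_lt_mul_of_pos_left (key k hk h0) h0⟩
  have k3 := Finset.sum_lt_sum k1 k2
  rw [← Finset.sum_mul, h1] at k3
  have k4 : ∑ k ∈ F, w k * (D k / d + S k / s + T k / t) =
      (∑ k ∈ F, w k * D k) / d + (∑ k ∈ F, w k * S k) / s + (∑ k ∈ F, w k * T k) / t := by
    rw [Finset.sum_div, Finset.sum_div, Finset.sum_div, ← Finset.sum_add_distrib,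
      ← Finset.sum_add_distrib]
    exact Finset.sum_congr rfl fun k _ => by ring
  have k5 : (∑ k ∈ F, w k * D k) / d ≤ 1 := (div_le_one hd).mpr hD
  have k6 : (∑ k ∈ F, w k * S k) / s ≤ 1 := (div_le_one hs).mpr hS
  have k7 : (∑ k ∈ F, w k * T k) / t ≤ 1 := (div_le_one ht).mpr hT
  linarith

end dis

section core

variable {TT VV R : Type} [Fintype TT] [Fintype VV] {μ : TT → ℝ} {ϖ : VV → ℝ}
  {adj : TT → VV → Prop} {W : Finset VV} {q : ℝ}

/-- The relations of the labels. -/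
def rel {Γ : Type} (p : ℕ) (fl : ℕ → ℤ) (pos : VV → ℕ) (rest : VV → R) (x : Fin 3 → Γ → VV)
    (ω : Γ) : ℤ × (ℤ × (Fin 3 → R)) :=
  ((pos (x 0 ω) : ℤ) - 2 ^ p * pos (x 1 ω), ((pos (x 2 ω) : ℤ) - fl (pos (x 1 ω)),
    fun i => rest (x i ω)))

/-- Three independent labels and their root. -/
theorem base (h : RHyp μ ϖ adj W q) (hW1 : wW ϖ W ≤ 1) (X p : ℕ) (hpX : p ≤ X) (fl : ℕ → ℤ)
    (hfl : ∀ n < 2 ^ X, |fl n| ≤ 2 ^ X) (pos : VV → ℕ) (hpos : ∀ a, pos a < 2 ^ X)
    (rest : VV → R) (F : Finset R) (hF : ∀ a, rest a ∈ F) {M : ℝ} (hM : 1 ≤ M)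
    (hat : ∀ G : Finset VV, (∀ a ∈ G, ∀ b ∈ G, pos a = pos b ∧ rest a = rest b) →
      ∑ a ∈ G, ϖ a ≤ M / (2 ^ X * F.card)) :
    ∃ (Γ : Type) (_ : Fintype Γ) (r : Γ → ℝ) (x : Fin 3 → Γ → VV) (y : Γ → TT),
      (∀ ω, 0 ≤ r ω) ∧ (∑ ω, r ω = 1) ∧ 0 < Real.log (2 / q) ∧
      (∀ i ω, 0 < r ω → x i ω ∈ W ∧ adj (y ω) (x i ω) ∧ 0 < ϖ (x i ω) ∧ 0 < μ (y ω)) ∧
      H r y - 3 * Real.log (2 / q) ≤ CH r y (fun ω i => x i ω) ∧
      Ex r (fun ω => -Real.log (μ (y ω))) ≤ H r y + Real.log (2 / q) ∧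
      0 ≤ Real.log M + Real.log (2 / (q * wW ϖ W)) ∧
      ((X : ℝ) - p) * Real.log 2 - (4 * Real.log 2 + 3 * (Real.log M +
        Real.log (2 / (q * wW ϖ W)))) ≤
        CH r (fun ω => pos (x 1 ω)) (fun ω => (rel p fl pos rest x ω, y ω)) := by
  classical
  have hq := h.q0
  have hW := h.W0
  have hroot1 := h.sum_one
  obtain ⟨Q, hQ⟩ : ∃ Q : TT × VV → ℝ, Q = root μ ϖ adj W q := ⟨_, rfl⟩
  have hQ0 : ∀ w, 0 ≤ Q w := by rw [hQ]; exact h.nn
  have hQ1 : ∑ w, Q w = 1 := by rw [hQ]; exact h.sum_one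
  have hF0 : (0 : ℝ) < F.card := by
    have : ∃ w, 0 < Q w := by
      by_contra hcon
      push Not at hcon
      have : ∑ w, Q w ≤ 0 := Finset.sum_nonpos fun w _ => hcon w
      linarith
    obtain ⟨w, _⟩ := this
    have : 0 < F.card := Finset.card_pos.mpr ⟨_, hF w.2⟩
    exact_mod_cast this
  obtain ⟨Γ, iΓ, r, ρ, y, hr, hl, hp, he, hi⟩ := copies hQ0 (fun w : TT × VV => w.1) 3
  have hr1 : ∑ ω, r ω = 1 := by rw [(hp 0).sum, hQ1]
  -- the labels
  obtain ⟨x, hx⟩ : ∃ x : Fin 3 → Γ → VV, x = fun i ω => (ρ i ω).2 := ⟨_, rfl⟩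
  have hsup : ∀ i ω, 0 < r ω → x i ω ∈ W ∧ adj (y ω) (x i ω) ∧ 0 < ϖ (x i ω) ∧ 0 < μ (y ω) := by
    intro i ω hω
    have a1 := (hp i).pos hr hω
    rw [hQ] at a1
    obtain ⟨_, b2, b3, b4, b5⟩ := h.supp a1
    rw [he i ω hω] at b3 b4
    rw [hx]
    exact ⟨b2, b3, b5, b4⟩
  have hHy : H r y = H Q (fun w => w.1) := H_law hl
  have hlq : 0 < Real.log (2 / q) := by
    refine Real.log_pos ?_
    rw [lt_div_iff₀ hq, one_mul]
    obtain ⟨a, ha, ha0⟩ : ∃ a ∈ W, 0 < ϖ a := by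
      by_contra hcon
      push Not at hcon
      have : wW ϖ W ≤ 0 := Finset.sum_nonpos hcon
      linarith
    obtain ⟨G, _, hG⟩ := h.deg a ha ha0
    have : ∑ t ∈ G, μ t ≤ ∑ t, μ t :=
      Finset.sum_le_sum_of_subset_of_nonneg (Finset.subset_univ _) fun t _ _ => h.mnn t
    have := h.m1
    linarith
  -- information of the three labels
  have hinfo : H r y - 3 * Real.log (2 / q) ≤ CH r y (fun ω i => x i ω) := by
    have k := info_iid hQ0 hQ1 (fun w : TT × VV => w.1) hr hr1 hl hp (fun _ w => w.2)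
      (hi (fun _ w => w.2))
    have k2 : ∑ i : Fin 3, (H Q (fun w : TT × VV => w.1) -
        CH Q (fun w => w.1) (fun w => w.2)) ≤ 3 * Real.log (2 / q) := by
      rw [Finset.sum_const, Finset.card_univ, Fintype.card_fin, nsmul_eq_mul]
      have := h.info
      rw [← hQ] at this
      push_cast
      linarith
    rw [hx]
    linarith
  -- the root against `μ`
  have hExy : Ex r (fun ω => -Real.log (μ (y ω))) ≤ H r y + Real.log (2 / q) := by
    have k := h.ex_root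
    rw [← hQ] at k
    rw [hHy]
    refine le_trans (le_of_eq ?_) k
    rw [← Ex_push (hp 0) (fun w => -Real.log (μ w.1))]
    unfold Ex
    refine Finset.sum_congr rfl fun ω _ => ?_
    rcases (hr ω).eq_or_lt with h0 | h0
    · rw [← h0, zero_mul, zero_mul]
    · show r ω * -Real.log (μ (y ω)) = r ω * -Real.log (μ (ρ 0 ω).1)
      rw [he 0 ω h0]
  -- the relations
  obtain ⟨Λ, hΛ⟩ : ∃ Λ : Γ → ℤ × (ℤ × (Fin 3 → R)), Λ = fun ω =>
    ((pos (x 0 ω) : ℤ) - 2 ^ p * pos (x 1 ω),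
      ((pos (x 2 ω) : ℤ) - fl (pos (x 1 ω)), fun i => rest (x i ω))) := ⟨_, rfl⟩
  obtain ⟨z, hz⟩ : ∃ z : Γ → (ℤ × (ℤ × (Fin 3 → R))) × TT, z = fun ω => (Λ ω, y ω) := ⟨_, rfl⟩
  -- entropy of the position
  obtain ⟨B, hB⟩ : ∃ B : ℝ, B = Real.log M + Real.log (2 / (q * wW ϖ W)) := ⟨_, rfl⟩
  have hB0 : 0 ≤ B := by
    rw [hB]
    refine add_nonneg (Real.log_nonneg hM) (Real.log_nonneg ?_)
    have hq2 : q ≤ 2 := by
      by_contra hcon
      have : Real.log (2 / q) < 0 := Real.log_neg (by positivity) (by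
        rw [div_lt_one hq]; exact not_le.mp hcon)
      linarith
    rw [le_div_iff₀ (by positivity), one_mul]
    calc q * wW ϖ W ≤ 2 * 1 := mul_le_mul hq2 hW1 hW.le (by norm_num)
      _ = 2 := by norm_num
  have hent : ((X : ℝ) - p) * Real.log 2 - (4 * Real.log 2 + 3 * B) ≤
      CH r (fun ω => pos (x 1 ω)) z := by
    -- everything is full given the root
    have f1 : ∀ i : Fin 3, (X : ℝ) * Real.log 2 + Real.log F.card - B ≤
        CH Q (fun w => (pos w.2, rest w.2)) (fun w => w.1) := by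
      intro i
      have hm : 0 < M / (2 ^ X * F.card) := by positivity
      have k := h.full (fun a => (pos a, rest a)) hm (fun G hG => hat G fun a ha b hb => by
        have := hG a ha b hb
        simpa only [Prod.mk.injEq] using this)
      rw [← hQ, Real.log_div (by positivity) (by positivity), Real.log_mul (by positivity)
        hF0.ne', Real.log_pow] at k
      rw [hB]
      linarith
    have f2 : 3 * ((X : ℝ) * Real.log 2 + Real.log F.card - B) ≤
        CH r (fun ω i => (pos (x i ω), rest (x i ω))) y := by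
      have k := hi (fun _ w => (pos w.2, rest w.2))
      have e : CH r (fun ω i => (pos (x i ω), rest (x i ω))) y =
          ∑ i : Fin 3, CH Q (fun w => (pos w.2, rest w.2)) (fun w => w.1) := by
        rw [hx]
        exact k
      rw [e, Finset.sum_const, Finset.card_univ, Fintype.card_fin, nsmul_eq_mul]
      have := f1 0
      push_cast
      linarith
    -- the values of the relations
    have f3 : CH r Λ y ≤ (2 * X + p + 4) * Real.log 2 + 3 * Real.log F.card := by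
      obtain ⟨G, hG⟩ : ∃ G : Finset (ℤ × (ℤ × (Fin 3 → R))), G =
        (Finset.Icc (-(2 ^ (p + X) : ℤ)) (2 ^ X)) ×ˢ ((Finset.Icc (-(2 ^ X : ℤ)) (2 * 2 ^ X)) ×ˢ
          (Fintype.piFinset fun _ : Fin 3 => F)) := ⟨_, rfl⟩
      have hm : ∀ ω, 0 < r ω → Λ ω ∈ G := by
        intro ω _
        rw [hΛ, hG]
        have a0 : ∀ i, ((pos (x i ω) : ℕ) : ℤ) < 2 ^ X := fun i => by
          have := hpos (x i ω)
          exact_mod_cast this
        have a1 : ∀ i, (0 : ℤ) ≤ (pos (x i ω) : ℕ) := fun i => Int.natCast_nonneg _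
        have hv2 := (abs_le.mp (hfl _ (hpos (x 1 ω)))).1
        have hv3 := (abs_le.mp (hfl _ (hpos (x 1 ω)))).2
        have hpow : (2 : ℤ) ^ (p + X) = 2 ^ p * 2 ^ X := pow_add _ _ _
        have h2p : (0 : ℤ) < 2 ^ p := by positivity
        simp only [Finset.mem_product, Finset.mem_Icc, Fintype.mem_piFinset]
        have b0 := a0 0
        have b1 := a0 1
        have b2 := a0 2
        have d0 := a1 0
        have d1 := a1 1
        have d2 := a1 2
        have g1 : (2 : ℤ) ^ p * (pos (x 1 ω) : ℕ) ≤ 2 ^ p * 2 ^ X :=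
          mul_le_mul_of_nonneg_left b1.le h2p.le
        have g2 : (0 : ℤ) ≤ 2 ^ p * (pos (x 1 ω) : ℕ) := mul_nonneg h2p.le d1
        refine ⟨⟨?_, ?_⟩, ⟨?_, ?_⟩, fun i => hF _⟩
        · rw [hpow]; linarith
        · linarith
        · linarith
        · linarith
      have k := CH_le_card hr hr1 Λ y (fun _ => G) hm
      rw [Ex_const hr1] at k
      refine k.trans ?_
      have hc : (G.card : ℝ) ≤ 2 ^ (X + p + 2) * (2 ^ (X + 2) * (F.card : ℝ) ^ 3) := by
        rw [hG, Finset.card_product, Finset.card_product, Int.card_Icc, Int.card_Icc,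
          Fintype.card_piFinset]
        have c1 : ((2 ^ X + 1 - -(2 ^ (p + X)) : ℤ).toNat : ℝ) ≤ 2 ^ (X + p + 2) := by
          have : (2 ^ X + 1 - -(2 ^ (p + X)) : ℤ).toNat = 2 ^ X + 1 + 2 ^ (p + X) := by
            have : (2 ^ X + 1 - -(2 ^ (p + X)) : ℤ) = ((2 ^ X + 1 + 2 ^ (p + X) : ℕ) : ℤ) := by
              push_cast; ring
            rw [this, Int.toNat_natCast]
          rw [this]
          have h1 : 2 ^ X ≤ 2 ^ (X + p) := Nat.pow_le_pow_right (by norm_num) (by omega)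
          have h2 : 1 ≤ 2 ^ (X + p) := Nat.one_le_two_pow
          have h3 : 2 ^ (p + X) = 2 ^ (X + p) := by rw [add_comm]
          have h4 : 2 ^ (X + p + 2) = 4 * 2 ^ (X + p) := by rw [pow_add]; ring
          have : 2 ^ X + 1 + 2 ^ (p + X) ≤ 2 ^ (X + p + 2) := by omega
          exact_mod_cast this
        have c2 : ((2 * 2 ^ X + 1 - -(2 ^ X) : ℤ).toNat : ℝ) ≤ 2 ^ (X + 2) := by
          have : (2 * 2 ^ X + 1 - -(2 ^ X) : ℤ).toNat = 2 * 2 ^ X + 1 + 2 ^ X := by
            have : (2 * 2 ^ X + 1 - -(2 ^ X) : ℤ) = ((2 * 2 ^ X + 1 + 2 ^ X : ℕ) : ℤ) := by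
              push_cast; ring
            rw [this, Int.toNat_natCast]
          rw [this]
          have h2 : 1 ≤ 2 ^ X := Nat.one_le_two_pow
          have h4 : 2 ^ (X + 2) = 4 * 2 ^ X := by rw [pow_add]; ring
          have : 2 * 2 ^ X + 1 + 2 ^ X ≤ 2 ^ (X + 2) := by omega
          exact_mod_cast this
        have c3 : ((∏ _i : Fin 3, F.card : ℕ) : ℝ) = (F.card : ℝ) ^ 3 := by
          rw [Finset.prod_const, Finset.card_univ, Fintype.card_fin]
          push_cast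
          ring
        push_cast at c1 c2 c3 ⊢
        rw [c3]
        exact mul_le_mul c1 (mul_le_mul_of_nonneg_right c2 (by positivity)) (by positivity)
          (by positivity)
      have hGc : (0 : ℝ) < G.card := by
        obtain ⟨ω, hω⟩ : ∃ ω, 0 < r ω := by
          by_contra hcon
          push Not at hcon
          have : ∑ ω, r ω ≤ 0 := Finset.sum_nonpos fun ω _ => hcon ω
          linarith
        have : 0 < G.card := Finset.card_pos.mpr ⟨_, hm ω hω⟩
        exact_mod_cast this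
      refine (Real.log_le_log hGc hc).trans (le_of_eq ?_)
      rw [Real.log_mul (by positivity) (by positivity), Real.log_mul (by positivity)
        (by positivity), Real.log_pow, Real.log_pow, Real.log_pow]
      push_cast
      ring
    have f4 : CH r (fun ω i => (pos (x i ω), rest (x i ω))) y ≤
        CH r (fun ω => (pos (x 1 ω), Λ ω)) y := by
      refine CH_mono_left hr ?_
      intro ω ω' _ _ hh
      rw [hΛ] at hh
      simp only [Prod.mk.injEq] at hh
      obtain ⟨⟨g1, g2, g3, g4⟩, g5⟩ := hh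
      have p0 : pos (x 0 ω) = pos (x 0 ω') := by
        rw [g1] at g2
        have : (pos (x 0 ω) : ℤ) = pos (x 0 ω') := by linarith
        exact_mod_cast this
      have p2 : pos (x 2 ω) = pos (x 2 ω') := by
        rw [g1] at g3
        have : (pos (x 2 ω) : ℤ) = pos (x 2 ω') := by linarith
        exact_mod_cast this
      funext i
      have hr' := congrFun g4 i
      fin_cases i
      · exact Prod.ext p0 hr'
      · exact Prod.ext g1 hr'
      · exact Prod.ext p2 hr'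
    have f5 : CH r (fun ω => (pos (x 1 ω), Λ ω)) y =
        CH r (fun ω => pos (x 1 ω)) z + CH r Λ y := by
      rw [CH_chain hr, hz, add_comm]
    linarith
  refine ⟨Γ, iΓ, r, x, y, hr, hr1, hlq, hsup, hinfo, hExy, ?_, ?_⟩
  · rw [hB] at hB0
    exact hB0
  · rw [hB, hz, hΛ] at hent
    exact hent


/-- A value of the relations has few pairs. -/
theorem ent_le {Γ : Type} [Fintype Γ] {r : Γ → ℝ} (hr : ∀ ω, 0 ≤ r ω) {X p : ℕ} (hpX : p ≤ X)
    {fl : ℕ → ℤ} {pos : VV → ℕ} (hpos : ∀ a, pos a < 2 ^ X) {rest : VV → R}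
    {x : Fin 3 → Γ → VV} {y : Γ → TT} (k : (ℤ × (ℤ × (Fin 3 → R))) × TT)
    (hk : 0 < law r (fun ω => (rel p fl pos rest x ω, y ω)) k) :
    H (cond r (fun ω => (rel p fl pos rest x ω, y ω)) k) (fun ω => pos (x 1 ω)) ≤
      ((X : ℝ) - p) * Real.log 2 := by
  classical
  obtain ⟨z, hz⟩ : ∃ z : Γ → (ℤ × (ℤ × (Fin 3 → R))) × TT,
    z = fun ω => (rel p fl pos rest x ω, y ω) := ⟨_, rfl⟩
  rw [← hz] at hk ⊢
  have a1 := cond_nonneg hr z k
  have a2 := sum_cond r z hk.ne'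
  have a3 : ∀ ω, 0 < cond r z k ω → 0 < r ω ∧ z ω = k := fun ω hω => (cond_pos_iff hr z k ω).mp hω
  have k1 : H (cond r z k) (fun ω => pos (x 1 ω)) ≤
      H (cond r z k) (fun ω => pos (x 0 ω) / 2 ^ p) := by
    refine H_mono a1 ?_
    intro ω ω' hω hω' hh
    have e1 := (a3 ω hω).2
    have e2 := (a3 ω' hω').2
    have e3 : (rel p fl pos rest x ω).1 = (rel p fl pos rest x ω').1 := by
      rw [← e2, hz] at e1
      simp only [Prod.mk.injEq] at e1
      rw [e1.1]
    unfold rel at e3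
    simp only at e3
    have h2p : (0 : ℤ) < 2 ^ p := by positivity
    have e4 : ((pos (x 0 ω) : ℕ) : ℤ) / 2 ^ p = ((pos (x 0 ω') : ℕ) : ℤ) / 2 ^ p := by
      have := congrArg (fun n : ℕ => (n : ℤ)) hh
      push_cast at this
      exact this
    have e5 : ((pos (x 0 ω) : ℕ) : ℤ) = 2 ^ p * pos (x 1 ω) +
        ((pos (x 0 ω) : ℤ) - 2 ^ p * pos (x 1 ω)) := by ring
    have e6 : ((pos (x 0 ω') : ℕ) : ℤ) = 2 ^ p * pos (x 1 ω') +
        ((pos (x 0 ω) : ℤ) - 2 ^ p * pos (x 1 ω)) := by rw [e3]; ring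
    rw [e5, e6] at e4
    generalize ((pos (x 0 ω) : ℤ) - 2 ^ p * pos (x 1 ω)) = c at e4
    rw [add_comm, Int.add_mul_ediv_left _ _ h2p.ne', add_comm (2 ^ p * _) c,
      Int.add_mul_ediv_left _ _ h2p.ne'] at e4
    have : ((pos (x 1 ω) : ℕ) : ℤ) = pos (x 1 ω') := by linarith
    exact_mod_cast this
  have k2 : H (cond r z k) (fun ω => pos (x 0 ω) / 2 ^ p) ≤
      Real.log ((range (2 ^ (X - p))).card) := by
    refine H_le_log_card a1 a2 _ _ ?_
    intro ω _
    rw [Finset.mem_range]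
    refine Nat.div_lt_of_lt_mul ?_
    rw [← pow_add, Nat.add_sub_cancel' hpX]
    exact hpos _
  rw [Finset.card_range] at k2
  push_cast at k2
  rw [Real.log_pow, Nat.cast_sub hpX] at k2
  linarith

/-- **Copies of a pair.** `r2` is the law of a pair of samples with the same relations and the same
root, `pre` a function of the pair; two copies of the pair with the same `pre`, the same second
sample and the same relations have many common neighbours. -/
theorem copy2 {Γ K C : Type} [Fintype Γ] {r : Γ → ℝ} (hr : ∀ ω, 0 ≤ r ω) (hr1 : ∑ ω, r ω = 1)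
    {x : Fin 3 → Γ → VV} {y : Γ → TT} (hμ : ∀ t, 0 ≤ μ t) (hμ1 : ∑ t, μ t ≤ 1)
    (hsup : ∀ i ω, 0 < r ω → adj (y ω) (x i ω) ∧ 0 < μ (y ω)) {a : ℝ}
    (hinfo : H r y - 3 * a ≤ CH r y (fun ω i => x i ω))
    (hExy : Ex r (fun ω => -Real.log (μ (y ω))) ≤ H r y + a) (Λ : Γ → K)
    (hΛd : Det r (fun ω i => x i ω) Λ) (pre : Γ → Γ → C)
    (hpre : ∀ ω₁ ω₁' ω₂ ω₂', (∀ i, x i ω₁ = x i ω₁') → (∀ i, x i ω₂ = x i ω₂') →
      pre ω₂ ω₁ = pre ω₂' ω₁') (s : ℝ) :
    s * Pb (cp (cp r (fun ω => (Λ ω, y ω)) r (fun ω => (Λ ω, y ω)))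
      (fun w => (pre w.2 w.1, ((Λ w.1, y w.1), fun i => x i w.2)))
      (cp r (fun ω => (Λ ω, y ω)) r (fun ω => (Λ ω, y ω)))
      (fun w => (pre w.2 w.1, ((Λ w.1, y w.1), fun i => x i w.2))))
      (fun w => nb μ adj (two x (w.1.1, w.2.1)) < Real.exp (-s)) ≤ 13 * a := by
  classical
  have k1 := info_cp' hr hr1 y (fun ω i => x i ω) Λ hΛd (a := 3 * a) hinfo
  obtain ⟨r2, hr2⟩ : ∃ r2 : Γ × Γ → ℝ,
    r2 = cp r (fun ω => (Λ ω, y ω)) r (fun ω => (Λ ω, y ω)) := ⟨_, rfl⟩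
  rw [← hr2] at k1 ⊢
  have h20 : ∀ w, 0 ≤ r2 w := by rw [hr2]; exact cp_nn hr hr
  have h2f : Push r2 r Prod.fst := by rw [hr2]; exact push_fst hr (fun _ => rfl)
  have h21 : ∑ w, r2 w = 1 := by rw [h2f.sum, hr1]
  have hd : Det r2 (fun w => ((fun i => x i w.1), fun i => x i w.2))
      (fun w => (pre w.2 w.1, ((fun i => x i w.2), Λ w.1))) := by
    intro w w' hw hw' hh
    simp only [Prod.mk.injEq] at hh ⊢
    refine ⟨hpre _ _ _ _ (fun i => congrFun hh.1 i) (fun i => congrFun hh.2 i), hh.2, ?_⟩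
    exact hΛd _ _ (h2f.pos h20 hw) (h2f.pos h20 hw') hh.1
  have k2 := info_cp' h20 h21 (fun w => y w.1) (fun w => ((fun i => x i w.1), fun i => x i w.2))
    (fun w => (pre w.2 w.1, ((fun i => x i w.2), Λ w.1))) hd (a := 2 * (3 * a)) k1
  have e1 : cp r2 (fun w => (pre w.2 w.1, ((Λ w.1, y w.1), fun i => x i w.2))) r2
      (fun w => (pre w.2 w.1, ((Λ w.1, y w.1), fun i => x i w.2))) =
      cp r2 (fun w => ((pre w.2 w.1, ((fun i => x i w.2), Λ w.1)), y w.1)) r2
      (fun w => ((pre w.2 w.1, ((fun i => x i w.2), Λ w.1)), y w.1)) := by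
    have hf : Function.Injective (fun u : (C × ((Fin 3 → VV) × K)) × TT =>
        (u.1.1, ((u.1.2.2, u.2), u.1.2.1))) := by
      rintro ⟨⟨a1, a2, a3⟩, a4⟩ ⟨⟨b1, b2, b3⟩, b4⟩ huu
      simp only [Prod.mk.injEq] at huu ⊢
      tauto
    exact cp_reenc (p := r2)
      (fun w : Γ × Γ => ((pre w.2 w.1, ((fun i => x i w.2), Λ w.1)), y w.1)) hf
  rw [e1]
  obtain ⟨P, hP⟩ : ∃ P : (Γ × Γ) × (Γ × Γ) → ℝ,
    P = cp r2 (fun w => ((pre w.2 w.1, ((fun i => x i w.2), Λ w.1)), y w.1)) r2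
      (fun w => ((pre w.2 w.1, ((fun i => x i w.2), Λ w.1)), y w.1)) := ⟨_, rfl⟩
  rw [← hP] at k2 ⊢
  have hP0 : ∀ w, 0 ≤ P w := by rw [hP]; exact cp_nn h20 h20
  have hPf : Push P r2 Prod.fst := by rw [hP]; exact push_fst h20 (fun _ => rfl)
  have hPs : Push P r2 Prod.snd := by rw [hP]; exact push_snd h20 (fun _ => rfl)
  have hP1 : ∑ w, P w = 1 := by rw [hPf.sum, h21]
  have hPe : ∀ w, 0 < P w → y w.1.1 = y w.2.1 := fun w hw => by
    rw [hP] at hw
    have := glue_eq hw h20 h20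
    simp only [Prod.mk.injEq] at this
    exact this.2
  have k3 := nbr_prob hP0 hP1 (fun w => y w.1.1) (fun w : (Γ × Γ) × (Γ × Γ) =>
    two x (w.1.1, w.2.1)) hμ (fun u => nbF adj u)
    (fun w _ => by
      refine le_trans ?_ hμ1
      exact Finset.sum_le_sum_of_subset_of_nonneg (Finset.subset_univ _) fun t _ _ => hμ t)
    (fun w hw => by
      refine mem_nbF.mpr fun i => ?_
      rcases i with i | i
      · exact (hsup i w.1.1 (h2f.pos h20 (hPf.pos hP0 hw))).1
      · show adj (y w.1.1) (x i w.2.1)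
        rw [hPe w hw]
        exact (hsup i w.2.1 (h2f.pos h20 (hPs.pos hP0 hw))).1)
    (fun w hw => (hsup 0 w.1.1 (h2f.pos h20 (hPf.pos hP0 hw))).2) s
  have k4 : Ex P (fun w => -Real.log (μ (y w.1.1))) = Ex r (fun ω => -Real.log (μ (y ω))) := by
    rw [← Ex_push h2f (fun ω => -Real.log (μ (y ω)))]
    exact Ex_push hPf (fun w : Γ × Γ => -Real.log (μ (y w.1)))
  have k5 : H P (fun w => y w.1.1) = H r y := by
    rw [← h2f.H y]
    exact hPf.H (fun w : Γ × Γ => y w.1)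
  have k6 : CH P (fun w => y w.1.1) (fun w => (((fun i => x i w.1.1), fun i => x i w.1.2),
      ((fun i => x i w.2.1), fun i => x i w.2.2))) ≤
      CH P (fun w => y w.1.1) (fun w : (Γ × Γ) × (Γ × Γ) => two x (w.1.1, w.2.1)) := by
    refine CH_mono_cond hP0 ?_
    intro w w' _ _ hh
    simp only [Prod.mk.injEq] at hh
    funext i
    rcases i with i | i
    · exact congrFun hh.1.1 i
    · exact congrFun hh.2.1 i
  simp only [nb_eq]
  rw [k4] at k3
  rw [k5] at k2
  linarith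

/-- **Samples with a fixed second sample `b`.** -/
theorem core (h : RHyp μ ϖ adj W q) (hW1 : wW ϖ W ≤ 1) (X p : ℕ) (hpX : p ≤ X) (fl : ℕ → ℤ)
    (hfl : ∀ n < 2 ^ X, |fl n| ≤ 2 ^ X) (pos : VV → ℕ) (hpos : ∀ a, pos a < 2 ^ X)
    (rest : VV → R) (F : Finset R) (hF : ∀ a, rest a ∈ F) {M : ℝ} (hM : 1 ≤ M)
    (hat : ∀ G : Finset VV, (∀ a ∈ G, ∀ b ∈ G, pos a = pos b ∧ rest a = rest b) →
      ∑ a ∈ G, ϖ a ≤ M / (2 ^ X * F.card)) {s : ℝ} (hs : 0 < s) {C : Type} (N : ℕ)
    (pre : ℕ → ℕ → ℕ → C) :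
    ∃ (Γ : Type) (_ : Fintype Γ) (ν : Γ → ℝ) (x : Fin 3 → Γ → VV) (b : Fin 3 → VV),
      (∀ ω, 0 ≤ ν ω) ∧ (∑ ω, ν ω = 1) ∧ (∀ i, b i ∈ W) ∧
      (∀ ω, 0 < ν ω → (∀ i, x i ω ∈ W ∧ rest (x i ω) = rest (b i)) ∧
        (pos (x 0 ω) : ℤ) - 2 ^ p * pos (x 1 ω) = (pos (b 0) : ℤ) - 2 ^ p * pos (b 1) ∧
        (pos (x 2 ω) : ℤ) - fl (pos (x 1 ω)) = (pos (b 2) : ℤ) - fl (pos (b 1))) ∧
      ((X : ℝ) - p) * Real.log 2 - 3 * (4 * Real.log 2 + 3 * (Real.log M +
        Real.log (2 / (q * wW ϖ W)))) ≤ H ν (fun ω => pos (x 1 ω)) ∧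
      s * ∑ l ∈ range N, Pb (cp ν (fun ω => pre l (pos (b 0)) (pos (x 0 ω))) ν
        (fun ω => pre l (pos (b 0)) (pos (x 0 ω)))) (fun w => nb μ adj (two x w) < Real.exp (-s)) ≤
        39 * (N * Real.log (2 / q)) ∧
      s * Pb (cp ν (fun _ => ()) ν (fun _ => ())) (fun w => nb μ adj (two x w) < Real.exp (-s)) ≤
        39 * Real.log (2 / q) := by
  classical
  obtain ⟨Γ, iΓ, r, x, y, hr, hr1, hlq, hsup, hinfo, hExy, hB0, hent⟩ := base h hW1 X p hpX fl hfl
    pos hpos rest F hF hM hat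
  obtain ⟨B, hB⟩ : ∃ B : ℝ, B = Real.log M + Real.log (2 / (q * wW ϖ W)) := ⟨_, rfl⟩
  obtain ⟨a, ha⟩ : ∃ a : ℝ, a = Real.log (2 / q) := ⟨_, rfl⟩
  rw [← hB] at hent hB0 ⊢
  rw [← ha] at hinfo hExy hlq ⊢
  obtain ⟨E, hE⟩ : ∃ E : Γ × Γ → Prop, E = fun w => nb μ adj (two x w) < Real.exp (-s) :=
    ⟨_, rfl⟩
  obtain ⟨z, hz⟩ : ∃ z : Γ → (ℤ × (ℤ × (Fin 3 → R))) × TT,
    z = fun ω => (rel p fl pos rest x ω, y ω) := ⟨_, rfl⟩
  obtain ⟨r2, hr2⟩ : ∃ r2 : Γ × Γ → ℝ, r2 = cp r z r z := ⟨_, rfl⟩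
  obtain ⟨Z, hZ⟩ : ∃ Z : Γ × Γ → ((ℤ × (ℤ × (Fin 3 → R))) × TT) × (Fin 3 → VV),
    Z = fun w => (z w.1, fun i => x i w.2) := ⟨_, rfl⟩
  have h20 : ∀ w, 0 ≤ r2 w := by rw [hr2]; exact cp_nn hr hr
  have h2f : Push r2 r Prod.fst := by rw [hr2]; exact push_fst hr (fun _ => rfl)
  have h21 : ∑ w, r2 w = 1 := by rw [h2f.sum, hr1]
  have hlZ : ∑ k ∈ univ.image Z, law r2 Z k = 1 := by rw [sum_law, h21]
  -- the law of the first sample
  have hpc : ∀ k, 0 < law r2 Z k → Push (cond r2 Z k) (cond r z k.1) Prod.fst := by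
    intro k hk
    rw [hZ, hr2] at hk ⊢
    exact push_cond hr z (fun ω i => x i ω) k hk
  -- one average
  have havg : ∀ {C' : Type} (pr : ℕ → ℕ → C'), ∑ k ∈ univ.image Z, law r2 Z k *
      Pb (cp (cond r z k.1) (fun ω => pr (pos (k.2 0)) (pos (x 0 ω))) (cond r z k.1)
        (fun ω => pr (pos (k.2 0)) (pos (x 0 ω)))) E ≤ 13 * a / s := by
    intro C' pr
    have k1 := copy2 hr hr1 (x := x) (y := y) h.mnn h.m1
      (fun i ω hω => ⟨(hsup i ω hω).2.1, (hsup i ω hω).2.2.2⟩) hinfo hExy (rel p fl pos rest x)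
      (fun ω ω' _ _ hh => by
        have : ∀ i, x i ω = x i ω' := fun i => congrFun hh i
        unfold rel
        simp only [this])
      (fun ω' ω => pr (pos (x 0 ω')) (pos (x 0 ω)))
      (fun ω₁ ω₁' ω₂ ω₂' e₁ e₂ => by rw [e₁ 0, e₂ 0]) s
    have e1 : (fun w : Γ × Γ => (pr (pos (x 0 w.2)) (pos (x 0 w.1)),
        ((rel p fl pos rest x w.1, y w.1), fun i => x i w.2))) =
        fun w => (pr (pos (x 0 w.2)) (pos (x 0 w.1)), Z w) := by
      rw [hZ, hz]
    rw [← hz, ← hr2, e1, Pb_dis h20] at k1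
    rw [le_div_iff₀ hs, mul_comm]
    refine le_trans (le_of_eq ?_) k1
    congr 1
    refine Finset.sum_congr rfl fun k _ => ?_
    rcases (law_nonneg h20 Z k).eq_or_lt with h0 | h0
    · rw [← h0, zero_mul, zero_mul]
    · congr 1
      have c0 := cond_nonneg h20 Z k
      have c1 := cond_nonneg hr z k.1
      have e2 : cp (cond r2 Z k) (fun w => pr (pos (x 0 w.2)) (pos (x 0 w.1))) (cond r2 Z k)
          (fun w => pr (pos (x 0 w.2)) (pos (x 0 w.1))) =
          cp (cond r2 Z k) (fun w => pr (pos (k.2 0)) (pos (x 0 w.1))) (cond r2 Z k)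
          (fun w => pr (pos (k.2 0)) (pos (x 0 w.1))) := by
        refine cp_supp c0 fun w hw => ?_
        have := ((cond_pos_iff h20 Z k w).mp hw).2
        rw [← this, hZ]
      rw [e2, hE]
      exact (Pb_cp_push (hpc k h0) c1 c0 (fun ω => pr (pos (k.2 0)) (pos (x 0 ω))) _).symm
  -- three averages
  obtain ⟨D, hD⟩ : ∃ D : ((ℤ × (ℤ × (Fin 3 → R))) × TT) × (Fin 3 → VV) → ℝ, D = fun k =>
    ((X : ℝ) - p) * Real.log 2 - H (cond r z k.1) (fun ω => pos (x 1 ω)) := ⟨_, rfl⟩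
  obtain ⟨S, hS⟩ : ∃ S : ((ℤ × (ℤ × (Fin 3 → R))) × TT) × (Fin 3 → VV) → ℝ, S = fun k =>
    ∑ l ∈ range N, Pb (cp (cond r z k.1) (fun ω => pre l (pos (k.2 0)) (pos (x 0 ω)))
      (cond r z k.1) (fun ω => pre l (pos (k.2 0)) (pos (x 0 ω)))) E := ⟨_, rfl⟩
  obtain ⟨T, hT⟩ : ∃ T : ((ℤ × (ℤ × (Fin 3 → R))) × TT) × (Fin 3 → VV) → ℝ, T = fun k =>
    Pb (cp (cond r z k.1) (fun _ => ()) (cond r z k.1) (fun _ => ())) E := ⟨_, rfl⟩
  have hln : 0 < Real.log 2 := Real.log_pos (by norm_num)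
  have hDs : ∑ k ∈ univ.image Z, law r2 Z k * D k ≤ 4 * Real.log 2 + 3 * B := by
    have e : ∑ k ∈ univ.image Z, law r2 Z k * D k =
        ((X : ℝ) - p) * Real.log 2 - CH r (fun ω => pos (x 1 ω)) z := by
      rw [CH_eq_sum hr, sum_val z (fun k => H (cond r z k) (fun ω => pos (x 1 ω))), sum_val Z D,
        ← Ex_push h2f (fun ω => H (cond r z (z ω)) (fun ω => pos (x 1 ω))), ← Ex_const h21
        (((X : ℝ) - p) * Real.log 2), ← Ex_sub]
      rw [hD, hZ]
    rw [e]
    rw [← hz] at hent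
    linarith
  have hSs : ∑ k ∈ univ.image Z, law r2 Z k * S k ≤ N * (13 * a / s) := by
    rw [hS]
    simp only [Finset.mul_sum]
    rw [Finset.sum_comm]
    refine (Finset.sum_le_sum fun l _ => havg (pre l)).trans (le_of_eq ?_)
    rw [Finset.sum_const, Finset.card_range, nsmul_eq_mul]
  have hTs : ∑ k ∈ univ.image Z, law r2 Z k * T k ≤ 13 * a / s := by
    rw [hT]
    exact havg (fun _ _ => ())
  have hcond : ∀ k, 0 < law r2 Z k → 0 < law r z k.1 ∧ ∃ ω', 0 < r ω' ∧ z ω' = k.1 ∧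
      (fun i => x i ω') = k.2 := by
    intro k hk
    obtain ⟨w, hw, hwk⟩ : ∃ w, 0 < r2 w ∧ Z w = k := by
      by_contra hcon
      push Not at hcon
      have : law r2 Z k ≤ 0 := by
        unfold law
        refine Finset.sum_nonpos fun w _ => ?_
        by_cases hw : Z w = k
        · rw [if_pos hw]
          by_contra h0
          exact hcon w (not_le.mp h0) hw
        · rw [if_neg hw]
      linarith
    rw [hr2] at hw
    obtain ⟨b1, b2, b3⟩ := (glue_pos_iff hr hr w).mp hw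
    rw [hZ] at hwk
    have e1 : z w.1 = k.1 := by rw [← hwk]
    have e2 : (fun i => x i w.2) = k.2 := by rw [← hwk]
    exact ⟨by rw [← e1]; exact law_pos hr z b1, w.2, b2, by rw [← b3, e1], e2⟩
  have hD0 : ∀ k ∈ univ.image Z, 0 < law r2 Z k → 0 ≤ D k := by
    intro k _ hk
    have k1 := (hcond k hk).1
    rw [hz] at k1
    have k2 := ent_le hr hpX hpos k.1 k1
    rw [← hz] at k2
    rw [hD]
    linarith
  have hS0 : ∀ k ∈ univ.image Z, 0 < law r2 Z k → 0 ≤ S k := by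
    intro k _ _
    have a1 := cond_nonneg hr z k.1
    rw [hS]
    exact Finset.sum_nonneg fun l _ => Pb_nn (cp_nn a1 a1) _
  have hT0 : ∀ k ∈ univ.image Z, 0 < law r2 Z k → 0 ≤ T k := by
    intro k _ _
    have a1 := cond_nonneg hr z k.1
    rw [hT]
    exact Pb_nn (cp_nn a1 a1) _
  have hpa : 0 < 13 * a / s := by positivity
  have hN1 : (1 : ℝ) ≤ (max N 1 : ℕ) := by
    have : 1 ≤ max N 1 := le_max_right _ _
    exact_mod_cast this
  have hNN : (N : ℝ) ≤ (max N 1 : ℕ) := by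
    have : N ≤ max N 1 := le_max_left _ _
    exact_mod_cast this
  obtain ⟨k, _, hk0, hkD, hkS, hkT⟩ := good_value3 (fun k _ => law_nonneg h20 Z k) hlZ
    (d := 4 * Real.log 2 + 3 * B) (s := (max N 1 : ℕ) * (13 * a / s)) (by positivity)
    (by positivity) hpa hDs (hSs.trans (mul_le_mul_of_nonneg_right hNN hpa.le)) hTs hD0 hS0 hT0
  obtain ⟨hkl, ω', hω', hz', hx'⟩ := hcond k hk0
  refine ⟨Γ, iΓ, cond r z k.1, x, k.2, cond_nonneg hr z k.1, sum_cond r z hkl.ne', ?_, ?_, ?_, ?_,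
    ?_⟩
  · intro i
    rw [← hx']
    exact (hsup i ω' hω').1
  · intro ω hω
    obtain ⟨b1, b2⟩ := (cond_pos_iff hr z k.1 ω).mp hω
    have e1 : rel p fl pos rest x ω = rel p fl pos rest x ω' := by
      rw [← hz', hz] at b2
      exact (Prod.ext_iff.mp b2).1
    have e2 : ∀ i, k.2 i = x i ω' := fun i => by rw [← hx']
    unfold rel at e1
    simp only [Prod.mk.injEq] at e1
    refine ⟨fun i => ⟨(hsup i ω b1).1, ?_⟩, ?_, ?_⟩
    · rw [e2]
      exact congrFun e1.2.2 i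
    · rw [e2, e2]
      exact e1.1
    · rw [e2, e2]
      exact e1.2.1
  · rw [hD] at hkD
    simp only at hkD
    linarith
  · rw [← hE]
    rcases Nat.eq_zero_or_pos N with hN | hN
    · rw [hN]
      simp
    · have : max N 1 = N := max_eq_left hN
      rw [this, hS] at hkS
      simp only at hkS
      have k3 := mul_le_mul_of_nonneg_left hkS hs.le
      refine k3.trans (le_of_eq ?_)
      field_simp
      ring
  · rw [← hE]
    rw [hT] at hkT
    simp only at hkT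
    have k3 := mul_le_mul_of_nonneg_left hkT hs.le
    refine k3.trans (le_of_eq ?_)
    field_simp
    ring

end core

end Pool.CLO97
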